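import Mathlib

set_option autoImplicit false

/-!
# Averaging against a Gaussian
-/

open Complex Filter Topology Set MeasureTheory

namespace Pool.Agent.K4H57.EC

/-- the Fourier transform of a Gaussian, real version -/
lemma cos_gauss {β : ℝ} (hβ : 0 < β) (u : ℝ) :
    ∫ t : ℝ, Real.cos (t * u) * Real.exp (-β * t ^ 2) = √(Real.pi / β) * Real.exp (-u ^ 2 / (4 * β)) := by
  have h1 := fourierIntegral_gaussian (b := (β : ℂ)) (by simpa using hβ) (u : ℂ)
  have h2 : ∀ t : ℝ, cexp (I * u * t) * cexp (-(β : ℂ) * (t : ℂ) ^ 2) =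
      ((Real.exp (-β * t ^ 2) : ℝ) : ℂ) * cexp (((t * u : ℝ) : ℂ) * I) := by
    intro t
    rw [Complex.ofReal_exp, mul_comm]
    congr 1
    · congr 1; push_cast; ring
    · congr 1; push_cast; ring
  have hre : ∀ t : ℝ, (cexp (I * u * t) * cexp (-(β : ℂ) * (t : ℂ) ^ 2)).re =
      Real.cos (t * u) * Real.exp (-β * t ^ 2) := by
    intro t
    rw [h2, Complex.re_ofReal_mul, Complex.exp_ofReal_mul_I_re, mul_comm]
  have hint : Integrable (fun t : ℝ => cexp (I * u * t) * cexp (-(β : ℂ) * (t : ℂ) ^ 2)) := by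
    have h3 : Integrable (fun t : ℝ => Real.exp (-β * t ^ 2)) := integrable_exp_neg_mul_sq hβ
    refine Integrable.mono' h3 (by fun_prop) (Eventually.of_forall fun t => ?_)
    rw [h2, norm_mul, Complex.norm_exp_ofReal_mul_I, mul_one, Complex.norm_real,
      Real.norm_of_nonneg (Real.exp_pos _).le]
  have h3 : ∫ t : ℝ, Real.cos (t * u) * Real.exp (-β * t ^ 2) =
      (∫ t : ℝ, cexp (I * u * t) * cexp (-(β : ℂ) * (t : ℂ) ^ 2)).re := by
    rw [← integral_congr_ae (Eventually.of_forall hre)]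
    exact integral_re hint
  rw [h3, h1]
  have e1 : ((Real.pi : ℂ) / β) ^ (1 / 2 : ℂ) = ((√(Real.pi / β) : ℝ) : ℂ) := by
    rw [Real.sqrt_eq_rpow, Complex.ofReal_cpow (by positivity)]
    push_cast
    rfl
  have e2 : cexp (-(u : ℂ) ^ 2 / (4 * β)) = ((Real.exp (-u ^ 2 / (4 * β)) : ℝ) : ℂ) := by
    push_cast
    rfl
  rw [e1, e2, ← Complex.ofReal_mul, Complex.ofReal_re]

lemma poisson_int {x : ℝ} (hx : 0 < x) : Integrable (fun t : ℝ => x / (x ^ 2 + t ^ 2)) ∧
    ∫ t : ℝ, x / (x ^ 2 + t ^ 2) = Real.pi := by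
  have e : ∀ t : ℝ, x / (x ^ 2 + t ^ 2) = x⁻¹ * (1 + (t / x) ^ 2)⁻¹ := by
    intro t
    field_simp
  have h1 : Integrable (fun t : ℝ => (1 + (t / x) ^ 2)⁻¹) :=
    integrable_inv_one_add_sq.comp_div hx.ne'
  constructor
  · refine (h1.const_mul x⁻¹).congr (Eventually.of_forall fun t => (e t).symm)
  · rw [integral_congr_ae (Eventually.of_forall e), integral_const_mul,
      Measure.integral_comp_div (fun t : ℝ => (1 + t ^ 2)⁻¹) x, integral_univ_inv_one_add_sq, abs_of_pos hx,
      smul_eq_mul, ← mul_assoc, inv_mul_cancel₀ hx.ne', one_mul]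

theorem gauss_avg {a u : ℕ → ℝ} (ha : ∀ n, 0 ≤ a n) (hs : Summable a) {x β Q : ℝ} (hx : 0 < x) (hβ : 0 < β)
    (hQ : 0 ≤ Q)
    (hF : ∀ t : ℝ, |t| ≤ 1 → ∑' n, a n * Real.cos (t * u n) ≤ x / (x ^ 2 + t ^ 2) + Q) (S : Finset ℕ) :
    ∑ n ∈ S, a n * Real.exp (-(u n) ^ 2 / (4 * β)) ≤ √(Real.pi * β) + Q + (1 / x + Q) * (√2 / β) := by
  have hpi := Real.pi_pos
  obtain ⟨g, hg⟩ : ∃ g : ℝ → ℝ, g = fun t => √(β / Real.pi) * Real.exp (-β * t ^ 2) := ⟨_, rfl⟩
  have hg0 : ∀ t, 0 ≤ g t := by intro t; rw [hg]; positivity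
  have hgi : Integrable g := by rw [hg]; exact (integrable_exp_neg_mul_sq hβ).const_mul _
  have hgc : Continuous g := by rw [hg]; fun_prop
  have hsq : √(β / Real.pi) * √(Real.pi / β) = 1 := by
    rw [← Real.sqrt_mul (by positivity)]
    have : β / Real.pi * (Real.pi / β) = 1 := by field_simp
    rw [this, Real.sqrt_one]
  have hgI : ∫ t, g t = 1 := by
    rw [hg]
    simp only
    rw [integral_const_mul, integral_gaussian, hsq]
  -- the terms
  obtain ⟨f, hf⟩ : ∃ f : ℕ → ℝ → ℝ, f = fun n t => a n * Real.cos (t * u n) * g t := ⟨_, rfl⟩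
  have hfb : ∀ n t, ‖f n t‖ ≤ a n * g t := by
    intro n t
    rw [hf]
    simp only
    rw [norm_mul, norm_mul, Real.norm_of_nonneg (ha n), Real.norm_of_nonneg (hg0 t)]
    refine mul_le_mul_of_nonneg_right ?_ (hg0 t)
    exact mul_le_of_le_one_right (ha n) (Real.abs_cos_le_one _)
  have hfi : ∀ n, Integrable (f n) := by
    intro n
    refine Integrable.mono' (hgi.const_mul (a n)) ?_ (Eventually.of_forall fun t => hfb n t)
    rw [hf]
    have : Continuous fun t : ℝ => a n * Real.cos (t * u n) * g t := by fun_prop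
    exact this.aestronglyMeasurable
  have hfs : Summable fun n => ∫ t, ‖f n t‖ := by
    refine Summable.of_nonneg_of_le (fun n => integral_nonneg fun t => norm_nonneg _) (fun n => ?_) hs
    calc ∫ t, ‖f n t‖ ≤ ∫ t, a n * g t := integral_mono (hfi n).norm (hgi.const_mul _) fun t => hfb n t
      _ = a n := by rw [integral_const_mul, hgI, mul_one]
  have hsum := hasSum_integral_of_summable_integral_norm hfi hfs
  have hterm : ∀ n, ∫ t, f n t = a n * Real.exp (-(u n) ^ 2 / (4 * β)) := by
    intro n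
    rw [hf]
    have e : ∀ t : ℝ, a n * Real.cos (t * u n) * g t =
        (a n * √(β / Real.pi)) * (Real.cos (t * u n) * Real.exp (-β * t ^ 2)) := by
      intro t
      rw [hg]
      ring
    simp only
    rw [integral_congr_ae (Eventually.of_forall e), integral_const_mul, cos_gauss hβ]
    calc a n * √(β / Real.pi) * (√(Real.pi / β) * Real.exp (-(u n) ^ 2 / (4 * β))) =
        a n * (√(β / Real.pi) * √(Real.pi / β)) * Real.exp (-(u n) ^ 2 / (4 * β)) := by ring
      _ = _ := by rw [hsq, mul_one]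
  simp only [hterm] at hsum
  have hle : ∑ n ∈ S, a n * Real.exp (-(u n) ^ 2 / (4 * β)) ≤ ∫ t, ∑' n, f n t :=
    sum_le_hasSum S (fun n _ => mul_nonneg (ha n) (Real.exp_pos _).le) hsum
  refine hle.trans ?_
  -- the pointwise bound
  obtain ⟨A, hA⟩ : ∃ A : ℝ, A = 1 / x + Q := ⟨_, rfl⟩
  have hA0 : 0 ≤ A := by rw [hA]; positivity
  have hsA : ∑' n, a n ≤ A := by
    have h1 := hF 0 (by norm_num)
    have h2 : ∀ n, a n * Real.cos (0 * u n) = a n := fun n => by rw [zero_mul, Real.cos_zero, mul_one]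
    rw [tsum_congr h2] at h1
    have h3 : x / (x ^ 2 + 0 ^ 2) = 1 / x := by field_simp; ring
    rw [h3] at h1
    rw [hA]
    exact h1
  have hcs : ∀ t : ℝ, Summable fun n => a n * Real.cos (t * u n) := by
    intro t
    refine Summable.of_norm_bounded (g := a) hs fun n => ?_
    rw [norm_mul, Real.norm_of_nonneg (ha n)]
    exact mul_le_of_le_one_right (ha n) (Real.abs_cos_le_one _)
  have hpt : ∀ t : ℝ, ∑' n, f n t ≤ √(β / Real.pi) * (x / (x ^ 2 + t ^ 2)) + Q * g t + A * (t ^ 2 * g t) := by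
    intro t
    have h1 : ∑' n, f n t = (∑' n, a n * Real.cos (t * u n)) * g t := by
      rw [hf, ← tsum_mul_right]
    have h2 : ∑' n, a n * Real.cos (t * u n) ≤ x / (x ^ 2 + t ^ 2) + Q + A * t ^ 2 := by
      rcases le_or_gt |t| 1 with ht | ht
      · have := hF t ht
        have : 0 ≤ A * t ^ 2 := by positivity
        linarith
      · have h3 : ∑' n, a n * Real.cos (t * u n) ≤ ∑' n, a n := by
          refine (hcs t).tsum_le_tsum (fun n => ?_) hs
          exact mul_le_of_le_one_right (ha n) (Real.cos_le_one _)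
        have h4 : 1 ≤ t ^ 2 := by
          rw [← sq_abs]
          nlinarith
        have h5 : A ≤ A * t ^ 2 := le_mul_of_one_le_right hA0 h4
        have h6 : 0 ≤ x / (x ^ 2 + t ^ 2) := by positivity
        linarith
    have h3 : g t ≤ √(β / Real.pi) := by
      rw [hg]
      refine mul_le_of_le_one_right (Real.sqrt_nonneg _) ?_
      rw [Real.exp_le_one_iff]
      have := sq_nonneg t
      nlinarith
    have h4 : x / (x ^ 2 + t ^ 2) * g t ≤ √(β / Real.pi) * (x / (x ^ 2 + t ^ 2)) := by
      rw [mul_comm]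
      exact mul_le_mul_of_nonneg_right h3 (by positivity)
    have h5 := mul_le_mul_of_nonneg_right h2 (hg0 t)
    rw [h1]
    nlinarith
  -- the second moment
  have hmom : Integrable (fun t => t ^ 2 * g t) ∧ ∫ t, t ^ 2 * g t ≤ √2 / β := by
    have h1 : ∀ t : ℝ, t ^ 2 * g t ≤ √(β / Real.pi) / β * Real.exp (-(β / 2) * t ^ 2) := by
      intro t
      have h2 : β / 2 * t ^ 2 + 1 ≤ Real.exp (β / 2 * t ^ 2) := Real.add_one_le_exp _
      have h3 : Real.exp (-β * t ^ 2) = Real.exp (-(β / 2) * t ^ 2) * Real.exp (-(β / 2) * t ^ 2) := by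
        rw [← Real.exp_add]; congr 1; ring
      have h4 : β * t ^ 2 * Real.exp (-(β / 2) * t ^ 2) ≤ 1 := by
        have h5 : β / 2 * t ^ 2 * Real.exp (-(β / 2) * t ^ 2) ≤ 1 / 2 := by
          -- y e^{-y} ≤ 1/e ≤ 1/2
          have h6 : β / 2 * t ^ 2 * 2 ≤ Real.exp (β / 2 * t ^ 2) := by
            have h7 : Real.exp 1 * (β / 2 * t ^ 2) ≤ Real.exp (β / 2 * t ^ 2) := by
              have h8 := Real.add_one_le_exp (β / 2 * t ^ 2 - 1)
              have h9 : Real.exp (β / 2 * t ^ 2) = Real.exp 1 * Real.exp (β / 2 * t ^ 2 - 1) := by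
                rw [← Real.exp_add]; congr 1; ring
              rw [h9]
              refine mul_le_mul_of_nonneg_left ?_ (Real.exp_pos _).le
              linarith
            have h10 : (2 : ℝ) ≤ Real.exp 1 := by
              have := Real.add_one_le_exp (1 : ℝ)
              linarith
            have h11 : 0 ≤ β / 2 * t ^ 2 := by positivity
            nlinarith
          have h12 : Real.exp (-(β / 2) * t ^ 2) = (Real.exp (β / 2 * t ^ 2))⁻¹ := by
            rw [← Real.exp_neg]; congr 1; ring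
          rw [h12, ← div_eq_mul_inv, div_le_iff₀ (Real.exp_pos _)]
          linarith
        linarith
      rw [hg]
      simp only
      rw [h3]
      have h13 : t ^ 2 * (√(β / Real.pi) * (Real.exp (-(β / 2) * t ^ 2) * Real.exp (-(β / 2) * t ^ 2))) =
          √(β / Real.pi) / β * Real.exp (-(β / 2) * t ^ 2) * (β * t ^ 2 * Real.exp (-(β / 2) * t ^ 2)) := by
        field_simp
      rw [h13]
      exact mul_le_of_le_one_right (by positivity) h4
    have h2 : Integrable (fun t : ℝ => √(β / Real.pi) / β * Real.exp (-(β / 2) * t ^ 2)) :=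
      (integrable_exp_neg_mul_sq (by positivity)).const_mul _
    have h3 : Integrable (fun t => t ^ 2 * g t) := by
      refine Integrable.mono' h2 (by fun_prop) (Eventually.of_forall fun t => ?_)
      rw [Real.norm_of_nonneg (mul_nonneg (sq_nonneg t) (hg0 t))]
      exact h1 t
    refine ⟨h3, (integral_mono h3 h2 h1).trans (le_of_eq ?_)⟩
    rw [integral_const_mul, integral_gaussian]
    have h4 : √(β / Real.pi) * √(Real.pi / (β / 2)) = √2 := by
      rw [← Real.sqrt_mul (by positivity)]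
      congr 1
      field_simp
    calc √(β / Real.pi) / β * √(Real.pi / (β / 2)) = (√(β / Real.pi) * √(Real.pi / (β / 2))) / β := by ring
      _ = _ := by rw [h4]
  obtain ⟨hm1, hm2⟩ := hmom
  obtain ⟨hp1, hp2⟩ := poisson_int hx
  have hfin : Integrable (fun t => √(β / Real.pi) * (x / (x ^ 2 + t ^ 2)) + Q * g t + A * (t ^ 2 * g t)) :=
    ((hp1.const_mul _).add (hgi.const_mul _)).add (hm1.const_mul _)
  have hti : Integrable (fun t => ∑' n, f n t) := by
    have hb : ∀ t, ‖∑' n, f n t‖ ≤ (∑' n, a n) * g t := by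
      intro t
      have h1 : Summable fun n => ‖f n t‖ := by
        refine Summable.of_nonneg_of_le (fun n => norm_nonneg _) (fun n => hfb n t) (hs.mul_right _)
      refine (norm_tsum_le_tsum_norm h1).trans ?_
      rw [← tsum_mul_right]
      exact h1.tsum_le_tsum (fun n => hfb n t) (hs.mul_right _)
    refine Integrable.mono' (hgi.const_mul _) ?_ (Eventually.of_forall hb)
    have h1 : (fun t => ∑' n, f n t) = fun t => (∑' n, a n * Real.cos (t * u n)) * g t := by
      funext t
      rw [hf, ← tsum_mul_right]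
    rw [h1]
    have h2 : Continuous fun t : ℝ => ∑' n, a n * Real.cos (t * u n) := by
      refine continuous_tsum (fun n => by fun_prop) hs fun n t => ?_
      rw [norm_mul, Real.norm_of_nonneg (ha n)]
      exact mul_le_of_le_one_right (ha n) (Real.abs_cos_le_one _)
    exact (h2.mul hgc).aestronglyMeasurable
  refine (integral_mono hti hfin hpt).trans ?_
  have i1 : Integrable (fun t => √(β / Real.pi) * (x / (x ^ 2 + t ^ 2)) + Q * g t) :=
    (hp1.const_mul _).add (hgi.const_mul _)
  rw [integral_add i1 (hm1.const_mul _), integral_add (hp1.const_mul _) (hgi.const_mul _), integral_const_mul,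
    integral_const_mul, integral_const_mul, hp2, hgI, mul_one]
  have h1 : √(β / Real.pi) * Real.pi = √(Real.pi * β) := by
    have h2 : Real.pi = √(Real.pi ^ 2) := (Real.sqrt_sq hpi.le).symm
    calc √(β / Real.pi) * Real.pi = √(β / Real.pi) * √(Real.pi ^ 2) := by rw [← h2]
      _ = √(Real.pi * β) := by
        rw [← Real.sqrt_mul (by positivity)]
        congr 1
        field_simp
  rw [h1]
  have h3 := mul_le_mul_of_nonneg_left hm2 hA0
  rw [← hA]
  linarith

end Pool.Agent.K4H57.EC
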