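import Pool.Agent.Helper170.Mertens

set_option autoImplicit false

/-!
# A lower bound for sums over primes, from Mertens' theorem
-/

open Filter Topology Set MeasureTheory

namespace Pool.Agent.K4H57.EC

/-- the weights -/
noncomputable def wp (p : ℕ) : ℝ := Real.log p / p

lemma wp_nonneg (p : ℕ) : 0 ≤ wp p := div_nonneg (Real.log_natCast_nonneg p) (Nat.cast_nonneg p)

/-- the primes that divide `M` -/
lemma excl (ε A : ℝ) (hε : 0 < ε) : ∃ L0 : ℝ, ∀ L : ℝ, L0 ≤ L → ∀ M : ℕ, M ≠ 0 → Real.log M ≤ A * L →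
    ∑ p ∈ M.primeFactors, wp p ≤ ε * L := by
  obtain ⟨C, hC⟩ := Pool.Agent.Helper170.Mertens.sum_log_div
  obtain ⟨T, hT⟩ := exists_nat_ge (max 1 (2 * |A| / ε))
  have hT1 : 1 ≤ T := by exact_mod_cast (le_max_left _ _).trans hT
  have hT2 : 2 * |A| / ε ≤ T := (le_max_right _ _).trans hT
  have hT0 : (0 : ℝ) < T := by exact_mod_cast hT1
  refine ⟨max 0 (2 * (Real.log T + C) / ε), fun L hL M hM hlog => ?_⟩
  have hL0 : 0 ≤ L := (le_max_left _ _).trans hL
  have hL1 : 2 * (Real.log T + C) / ε ≤ L := (le_max_right _ _).trans hL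
  have h1 : ∑ p ∈ M.primeFactors, wp p ≤ ∑ p ∈ (Finset.Icc 1 T).filter Nat.Prime, wp p +
      ∑ p ∈ M.primeFactors, Real.log p / T := by
    have h2 : ∀ p ∈ M.primeFactors, wp p ≤ (if p ≤ T then wp p else 0) + Real.log p / T := by
      intro p hp
      have hp0 := (Nat.prime_of_mem_primeFactors hp).pos
      split_ifs with h
      · have : 0 ≤ Real.log p / T := div_nonneg (Real.log_natCast_nonneg p) hT0.le
        linarith
      · rw [zero_add]
        unfold wp
        refine div_le_div_of_nonneg_left (Real.log_natCast_nonneg p) hT0 ?_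
        push Not at h
        exact_mod_cast h.le
    refine (Finset.sum_le_sum h2).trans ?_
    rw [Finset.sum_add_distrib]
    refine add_le_add ?_ le_rfl
    rw [← Finset.sum_filter]
    refine Finset.sum_le_sum_of_subset_of_nonneg ?_ fun p _ _ => wp_nonneg p
    intro p hp
    rw [Finset.mem_filter] at hp ⊢
    have hpp := Nat.prime_of_mem_primeFactors hp.1
    exact ⟨Finset.mem_Icc.2 ⟨hpp.one_lt.le, hp.2⟩, hpp⟩
  have h3 : ∑ p ∈ (Finset.Icc 1 T).filter Nat.Prime, wp p ≤ Real.log T + C := by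
    have := (abs_le.1 (hC T hT1)).2
    unfold wp
    linarith
  have h4 : ∑ p ∈ M.primeFactors, Real.log p / T ≤ |A| * L / T := by
    rw [← Finset.sum_div]
    refine div_le_div_of_nonneg_right ?_ hT0.le
    have h5 : ∑ p ∈ M.primeFactors, Real.log p = Real.log ((∏ p ∈ M.primeFactors, p : ℕ) : ℝ) := by
      rw [Nat.cast_prod, Real.log_prod]
      intro p hp
      exact_mod_cast (Nat.prime_of_mem_primeFactors hp).ne_zero
    rw [h5]
    have h6 : (∏ p ∈ M.primeFactors, p) ≤ M := Nat.le_of_dvd (Nat.pos_of_ne_zero hM) (Nat.prod_primeFactors_dvd M)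
    have h7 : 0 < ∏ p ∈ M.primeFactors, p := Finset.prod_pos fun p hp => (Nat.prime_of_mem_primeFactors hp).pos
    calc Real.log ((∏ p ∈ M.primeFactors, p : ℕ) : ℝ) ≤ Real.log M :=
          Real.log_le_log (by exact_mod_cast h7) (by exact_mod_cast h6)
      _ ≤ A * L := hlog
      _ ≤ |A| * L := mul_le_mul_of_nonneg_right (le_abs_self A) hL0
  have h5 : |A| * L / T ≤ ε / 2 * L := by
    rw [div_le_iff₀ hT0]
    rw [div_le_iff₀ hε] at hT2
    nlinarith
  have h6 : Real.log T + C ≤ ε / 2 * L := by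
    rw [div_le_iff₀ hε] at hL1
    linarith
  linarith

open Classical in
/-- the primes between `k` and `e^L` that do not divide `M` -/
noncomputable def PS (k M : ℕ) (v : ℝ) : Finset ℕ :=
  (Finset.Icc 1 ⌊Real.exp v⌋₊).filter fun p => p.Prime ∧ k < p ∧ ¬ p ∣ M

lemma part_low (k : ℕ) (δ A : ℝ) (hδ : 0 < δ) : ∃ L0 : ℝ, ∀ L : ℝ, L0 ≤ L → ∀ M : ℕ, M ≠ 0 → Real.log M ≤ A * L →
    ∀ v : ℝ, 0 ≤ v → v - δ * L ≤ ∑ p ∈ PS k M v, wp p := by
  classical
  obtain ⟨C, hC⟩ := Pool.Agent.Helper170.Mertens.sum_log_div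
  obtain ⟨L1, h1⟩ := excl (δ / 2) A (by linarith)
  obtain ⟨B, hB⟩ : ∃ B : ℝ, B = C + Real.log 2 + ∑ p ∈ Finset.Icc 1 k, wp p := ⟨_, rfl⟩
  refine ⟨max L1 (2 * B / δ), fun L hL M hM hlog v hv => ?_⟩
  have hL1 := h1 L ((le_max_left _ _).trans hL) M hM hlog
  have hL2 : 2 * B / δ ≤ L := (le_max_right _ _).trans hL
  obtain ⟨n, hn⟩ : ∃ n : ℕ, n = ⌊Real.exp v⌋₊ := ⟨_, rfl⟩
  have hv1 : 1 ≤ Real.exp v := Real.one_le_exp hv
  have hn1 : 1 ≤ n := by
    rw [hn]
    exact Nat.le_floor (by simpa using hv1)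
  have hn0 : (0 : ℝ) < n := by exact_mod_cast hn1
  have hn2 : Real.exp v ≤ 2 * n := by
    have h3 := Nat.lt_floor_add_one (Real.exp v)
    rw [← hn] at h3
    have h4 : (1 : ℝ) ≤ n := by exact_mod_cast hn1
    linarith
  have h3 : v ≤ Real.log n + Real.log 2 := by
    have h4 : Real.log (Real.exp v) ≤ Real.log (2 * n) := Real.log_le_log (Real.exp_pos v) hn2
    rw [Real.log_exp, Real.log_mul (by norm_num) hn0.ne'] at h4
    linarith
  have h4 := (abs_le.1 (hC n hn1)).1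
  have h5 : ∑ p ∈ (Finset.Icc 1 n).filter Nat.Prime, Real.log p / p ≤
      ∑ p ∈ PS k M v, wp p + ∑ p ∈ Finset.Icc 1 k, wp p + ∑ p ∈ M.primeFactors, wp p := by
    have h6 : (Finset.Icc 1 n).filter Nat.Prime ⊆ PS k M v ∪ (Finset.Icc 1 k ∪ M.primeFactors) := by
      intro p hp
      rw [Finset.mem_filter] at hp
      rw [Finset.mem_union, Finset.mem_union]
      by_cases ha : k < p
      · by_cases hb : p ∣ M
        · exact Or.inr (Or.inr (Nat.mem_primeFactors.2 ⟨hp.2, hb, hM⟩))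
        · left
          unfold PS
          rw [Finset.mem_filter, ← hn]
          exact ⟨hp.1, hp.2, ha, hb⟩
      · right; left
        rw [Finset.mem_Icc] at hp ⊢
        omega
    have h7 : ∑ p ∈ (Finset.Icc 1 n).filter Nat.Prime, Real.log p / p ≤
        ∑ p ∈ PS k M v ∪ (Finset.Icc 1 k ∪ M.primeFactors), wp p :=
      Finset.sum_le_sum_of_subset_of_nonneg h6 fun p _ _ => wp_nonneg p
    have h8 : ∀ S T : Finset ℕ, ∑ p ∈ S ∪ T, wp p ≤ ∑ p ∈ S, wp p + ∑ p ∈ T, wp p := by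
      intro S T
      have := Finset.sum_union_inter (s₁ := S) (s₂ := T) (f := wp)
      have h9 : 0 ≤ ∑ p ∈ S ∩ T, wp p := Finset.sum_nonneg fun p _ => wp_nonneg p
      linarith
    have h9 := h8 (PS k M v) (Finset.Icc 1 k ∪ M.primeFactors)
    have h10 := h8 (Finset.Icc 1 k) M.primeFactors
    linarith
  have h6 : B ≤ δ / 2 * L := by
    rw [div_le_iff₀ hδ] at hL2
    linarith
  rw [hB] at h6
  linarith

/-- Abel summation -/
lemma abel (ψ : ℕ → ℝ) (K : ℕ) : ∑ j ∈ Finset.range K, (ψ j - ψ (j + 1)) * (j + 1) =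
    ∑ j ∈ Finset.range K, ψ j - K * ψ K := by
  induction K with
  | zero => simp
  | succ K ih =>
    rw [Finset.sum_range_succ, ih, Finset.sum_range_succ]
    push_cast
    ring

lemma tele (ψ : ℕ → ℝ) {a K : ℕ} (h : a ≤ K) : ∑ j ∈ Finset.Ico a K, (ψ j - ψ (j + 1)) = ψ a - ψ K := by
  induction K, h using Nat.le_induction with
  | base => simp
  | succ K hK ih =>
    rw [Finset.sum_Ico_succ_top hK, ih]
    ring

/-- the weight -/
noncomputable def ph (c t : ℝ) : ℝ := Real.exp (-c * t ^ 2)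

lemma ph_anti {c : ℝ} (hc : 0 < c) {s t : ℝ} (hs : 0 ≤ s) (hst : s ≤ t) : ph c t ≤ ph c s := by
  unfold ph
  apply Real.exp_le_exp.2
  have : s ^ 2 ≤ t ^ 2 := pow_le_pow_left₀ hs hst 2
  nlinarith

/-- the sum over the primes -/
theorem low_sum (c : ℝ) (hc : 0 < c) (k K : ℕ) (hK : 0 < K) (δ A : ℝ) (hδ : 0 < δ) : ∃ L0 : ℝ, ∀ L : ℝ, L0 ≤ L →
    ∀ M : ℕ, M ≠ 0 → Real.log M ≤ A * L →
    L * ((∑ j ∈ Finset.range K, ph c ((j + 1) / K)) / K - δ) ≤ ∑ p ∈ PS k M L, wp p * ph c (Real.log p / L) := by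
  classical
  obtain ⟨L1, h1⟩ := part_low k δ A hδ
  refine ⟨max L1 1, fun L hL M hM hlog => ?_⟩
  have hL1 : 1 ≤ L := (le_max_right _ _).trans hL
  have hL0 : 0 < L := by linarith
  have h2 := h1 L ((le_max_left _ _).trans hL) M hM hlog
  have hK0 : (0 : ℝ) < K := by exact_mod_cast hK
  obtain ⟨ψ, hψ⟩ : ∃ ψ : ℕ → ℝ, ψ = fun j => if j < K then ph c (((j : ℝ) + 1) / K) else 0 := ⟨_, rfl⟩
  have hψ1 : ∀ j, j < K → ψ j = ph c (((j : ℝ) + 1) / K) := fun j hj => by rw [hψ]; simp only; rw [if_pos hj]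
  have hψK : ψ K = 0 := by rw [hψ]; simp
  have hψd : ∀ j, 0 ≤ ψ j - ψ (j + 1) := by
    intro j
    rw [sub_nonneg]
    rcases lt_or_ge (j + 1) K with h | h
    · rw [hψ1 j (by omega), hψ1 (j + 1) h]
      apply ph_anti hc (by positivity)
      rw [div_le_div_iff_of_pos_right hK0]
      push_cast
      linarith
    · rw [hψ]
      simp only
      rw [if_neg (by omega)]
      split_ifs
      · exact (Real.exp_pos _).le
      · exact le_rfl
  have hstep : ∀ p ∈ PS k M L, ∑ j ∈ (Finset.range K).filter (fun j : ℕ => Real.log p / L ≤ ((j : ℝ) + 1) / K),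
      (ψ j - ψ (j + 1)) ≤ ph c (Real.log p / L) := by
    intro p hp
    unfold PS at hp
    rw [Finset.mem_filter, Finset.mem_Icc] at hp
    have hp1 : 1 ≤ p := hp.1.1
    have hp0 : (0 : ℝ) < p := by exact_mod_cast hp1
    have hlp : Real.log p ≤ L := by
      rw [Real.log_le_iff_le_exp hp0]
      exact (Nat.le_floor_iff (Real.exp_pos L).le).1 hp.1.2
    have hlp0 : 0 ≤ Real.log p := Real.log_natCast_nonneg p
    obtain ⟨t, ht⟩ : ∃ t : ℝ, t = Real.log p / L := ⟨_, rfl⟩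
    have ht0 : 0 ≤ t := by rw [ht]; positivity
    have ht1 : t ≤ 1 := by rw [ht, div_le_one hL0]; exact hlp
    rw [← ht]
    obtain ⟨a, ha⟩ : ∃ a : ℕ, a = ⌈K * t⌉₊ - 1 := ⟨_, rfl⟩
    have hceil : ⌈K * t⌉₊ ≤ K := by
      rw [Nat.ceil_le]
      nlinarith
    have haK : a < K := by omega
    have hfil : (Finset.range K).filter (fun j : ℕ => t ≤ ((j : ℝ) + 1) / K) = Finset.Ico a K := by
      ext j
      rw [Finset.mem_filter, Finset.mem_range, Finset.mem_Ico, le_div_iff₀ hK0]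
      have h3 : t * K ≤ (j : ℝ) + 1 ↔ ⌈K * t⌉₊ ≤ j + 1 := by
        rw [Nat.ceil_le, mul_comm]
        push_cast
        rfl
      rw [h3]
      constructor
      · rintro ⟨h4, h5⟩
        exact ⟨by omega, h4⟩
      · rintro ⟨h4, h5⟩
        exact ⟨h5, by omega⟩
    rw [hfil, tele ψ haK.le, hψK, sub_zero, hψ1 a haK]
    apply ph_anti hc ht0
    rw [le_div_iff₀ hK0, mul_comm]
    have h4 := Nat.le_ceil (K * t)
    have h5 : ((⌈K * t⌉₊ : ℕ) : ℝ) ≤ (a : ℝ) + 1 := by
      have : ⌈K * t⌉₊ ≤ a + 1 := by omega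
      exact_mod_cast this
    linarith
  have h3 : ∑ p ∈ PS k M L, wp p * ph c (Real.log p / L) ≥
      ∑ j ∈ Finset.range K, (ψ j - ψ (j + 1)) * ((((j : ℝ) + 1) / K) * L - δ * L) := by
    calc ∑ p ∈ PS k M L, wp p * ph c (Real.log p / L) ≥ ∑ p ∈ PS k M L, wp p *
          ∑ j ∈ (Finset.range K).filter (fun j : ℕ => Real.log p / L ≤ ((j : ℝ) + 1) / K), (ψ j - ψ (j + 1)) :=
          Finset.sum_le_sum fun p hp => mul_le_mul_of_nonneg_left (hstep p hp) (wp_nonneg p)
      _ = ∑ j ∈ Finset.range K, (ψ j - ψ (j + 1)) *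
          ∑ p ∈ (PS k M L).filter (fun p : ℕ => Real.log p / L ≤ ((j : ℝ) + 1) / K), wp p := by
          simp only [Finset.mul_sum, Finset.sum_filter]
          rw [Finset.sum_comm]
          refine Finset.sum_congr rfl fun j _ => Finset.sum_congr rfl fun p _ => ?_
          split_ifs
          · ring
          · ring
      _ ≥ ∑ j ∈ Finset.range K, (ψ j - ψ (j + 1)) * ((((j : ℝ) + 1) / K) * L - δ * L) := by
          refine Finset.sum_le_sum fun j hj => mul_le_mul_of_nonneg_left ?_ (hψd j)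
          have hj' := Finset.mem_range.1 hj
          refine (h2 ((((j : ℝ) + 1) / K) * L) (by positivity)).trans ?_
          refine Finset.sum_le_sum_of_subset_of_nonneg ?_ fun p _ _ => wp_nonneg p
          intro p hp
          unfold PS at hp ⊢
          rw [Finset.mem_filter, Finset.mem_Icc] at hp
          have hp0 : (0 : ℝ) < p := by exact_mod_cast hp.1.1
          have hpe : (p : ℝ) ≤ Real.exp ((((j : ℝ) + 1) / K) * L) :=
            (Nat.le_floor_iff (Real.exp_pos _).le).1 hp.1.2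
          rw [Finset.mem_filter, Finset.mem_filter, Finset.mem_Icc]
          have hj1 : ((j : ℝ) + 1) / K ≤ 1 := by
            rw [div_le_one hK0]
            exact_mod_cast hj'
          refine ⟨⟨⟨hp.1.1, ?_⟩, hp.2⟩, ?_⟩
          · refine Nat.le_floor (hpe.trans (Real.exp_le_exp.2 ?_))
            nlinarith
          · rw [div_le_iff₀ hL0]
            exact (Real.log_le_iff_le_exp hp0).2 hpe
  have h4 : ∑ j ∈ Finset.range K, (ψ j - ψ (j + 1)) * ((((j : ℝ) + 1) / K) * L - δ * L) =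
      L * ((∑ j ∈ Finset.range K, ψ j) / K - δ * ψ 0) := by
    have e1 : ∀ j ∈ Finset.range K, (ψ j - ψ (j + 1)) * ((((j : ℝ) + 1) / K) * L - δ * L) =
        L / K * ((ψ j - ψ (j + 1)) * (j + 1)) - δ * L * (ψ j - ψ (j + 1)) := by
      intro j _
      ring
    rw [Finset.sum_congr rfl e1, Finset.sum_sub_distrib, ← Finset.mul_sum, ← Finset.mul_sum, abel, hψK,
      Finset.sum_range_sub' ψ K, hψK]
    ring
  refine le_trans ?_ h3
  rw [h4]
  · have h4 : ∑ j ∈ Finset.range K, ψ j = ∑ j ∈ Finset.range K, ph c (((j : ℝ) + 1) / K) :=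
      Finset.sum_congr rfl fun j hj => hψ1 j (Finset.mem_range.1 hj)
    have h5 : ψ 0 ≤ 1 := by
      rw [hψ1 0 hK]
      unfold ph
      rw [Real.exp_le_one_iff]
      have : 0 ≤ (((0 : ℕ) : ℝ) + 1) / K := by positivity
      nlinarith [sq_nonneg ((((0 : ℕ) : ℝ) + 1) / K)]
    rw [h4]
    refine mul_le_mul_of_nonneg_left ?_ hL0.le
    nlinarith

end Pool.Agent.K4H57.EC
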