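import Pool.Agent.R362.NearOrd2

set_option autoImplicit false

/-!
# The logarithmic derivative of a Dedekind zeta function as a Dirichlet series
-/

open NumberField Complex Filter Topology Set
open scoped ComplexConjugate

namespace Pool.Agent.K4H57.EC

open Pool.Agent.Y773 Pool.Agent.R362.Near Pool.Agent.R362.HL
open Pool.Agent.Y773.G
open Pool.Agent.Y772.DK (D_hasSum deriv_LI D_eq NN_finite VM_nonneg cc_mul norm_cc_le LA ee)

variable (E : Type) [Field E] [NumberField E]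

/-- the coefficients of `-ζ'/ζ` -/
noncomputable def bb (n : ℕ) : ℝ := (cc (triv E) n).re * ArithmeticFunction.vonMangoldt n

lemma cc_real (n : ℕ) : cc (triv E) n = (((cc (triv E) n).re : ℝ) : ℂ) ∧ 0 ≤ (cc (triv E) n).re := by
  have hfin : {𝔞 : Ideal (𝓞 E) | Ideal.absNorm 𝔞 = n}.Finite := NN_finite n
  have h1 : ∑ᶠ 𝔞 ∈ {𝔞 : Ideal (𝓞 E) | Ideal.absNorm 𝔞 = n}, (VM 𝔞 : ℂ) * triv E 𝔞 =
      ((∑ᶠ 𝔞 ∈ {𝔞 : Ideal (𝓞 E) | Ideal.absNorm 𝔞 = n}, VM 𝔞 * (triv E 𝔞).re : ℝ) : ℂ) := by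
    rw [finsum_mem_eq_finite_toFinset_sum _ hfin, finsum_mem_eq_finite_toFinset_sum _ hfin,
      Complex.ofReal_sum]
    refine Finset.sum_congr rfl fun 𝔞 _ => ?_
    rw [Complex.ofReal_mul]
    congr 1
    by_cases h : 𝔞 = ⊥
    · rw [h, triv_bot]; simp
    · rw [triv_apply h]; simp
  have h2 : 0 ≤ ∑ᶠ 𝔞 ∈ {𝔞 : Ideal (𝓞 E) | Ideal.absNorm 𝔞 = n}, VM 𝔞 * (triv E 𝔞).re := by
    rw [finsum_mem_eq_finite_toFinset_sum _ hfin]
    exact Finset.sum_nonneg fun 𝔞 _ => mul_nonneg (VM_nonneg _) (triv_re 𝔞)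
  have h3 : cc (triv E) n = ((((∑ᶠ 𝔞 ∈ {𝔞 : Ideal (𝓞 E) | Ideal.absNorm 𝔞 = n}, VM 𝔞 * (triv E 𝔞).re) /
      ArithmeticFunction.vonMangoldt n : ℝ)) : ℂ) := by
    unfold cc
    rw [h1, Complex.ofReal_div]
  rw [h3]
  refine ⟨by rw [Complex.ofReal_re], ?_⟩
  rw [Complex.ofReal_re]
  exact div_nonneg h2 ArithmeticFunction.vonMangoldt_nonneg

lemma bb_nonneg (n : ℕ) : 0 ≤ bb E n := mul_nonneg (cc_real E n).2 ArithmeticFunction.vonMangoldt_nonneg

lemma bb_le (n : ℕ) : bb E n ≤ Module.finrank ℚ E * ArithmeticFunction.vonMangoldt n := by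
  unfold bb
  refine mul_le_mul_of_nonneg_right ?_ ArithmeticFunction.vonMangoldt_nonneg
  exact (Complex.re_le_norm _).trans (norm_cc_le (triv E) triv_norm n)

lemma vM_summable {σ : ℝ} (hσ : 1 < σ) : Summable (fun n : ℕ => ArithmeticFunction.vonMangoldt n *
    (n : ℝ) ^ (-σ)) := by
  have h1 := (ArithmeticFunction.LSeriesSummable_vonMangoldt
    (s := (σ : ℂ)) (by rw [ofReal_re]; exact hσ)).norm
  refine h1.congr fun n => ?_
  rw [LSeries.norm_term_eq]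
  rcases eq_or_ne n 0 with rfl | hn
  · simp
  · rw [if_neg hn, Complex.norm_real, Real.norm_of_nonneg ArithmeticFunction.vonMangoldt_nonneg,
      Complex.ofReal_re, Real.rpow_neg (Nat.cast_nonneg n), div_eq_mul_inv]

lemma bb_summable {σ : ℝ} (hσ : 1 < σ) : Summable (fun n : ℕ => bb E n * (n : ℝ) ^ (-σ)) := by
  refine Summable.of_nonneg_of_le (fun n => mul_nonneg (bb_nonneg E n) (Real.rpow_nonneg (Nat.cast_nonneg n) _))
    (fun n => ?_) ((vM_summable hσ).mul_left (Module.finrank ℚ E : ℝ))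
  rw [← mul_assoc]
  exact mul_le_mul_of_nonneg_right (bb_le E n) (Real.rpow_nonneg (Nat.cast_nonneg n) _)

/-- real part of a term -/
lemma term_re {b : ℝ} {n : ℕ} (hn : n ≠ 0) (σ t : ℝ) : ((b : ℂ) * (n : ℂ) ^ (-((σ : ℂ) + t * I))).re =
    b * (n : ℝ) ^ (-σ) * Real.cos (t * Real.log n) := by
  have hn0 : (0 : ℝ) < n := by exact_mod_cast Nat.pos_of_ne_zero hn
  have h1 : (n : ℂ) ^ (-((σ : ℂ) + t * I)) = (((n : ℝ) ^ (-σ) : ℝ) : ℂ) * Complex.exp ((-(t * Real.log n) : ℝ) * I) := by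
    rw [Complex.cpow_def_of_ne_zero (by exact_mod_cast hn), Real.rpow_def_of_pos hn0, Complex.ofReal_exp,
      ← Complex.exp_add]
    congr 1
    rw [← Complex.ofReal_natCast, ← Complex.ofReal_log hn0.le]
    push_cast
    ring
  rw [h1, ← mul_assoc, ← Complex.ofReal_mul, Complex.re_ofReal_mul, Complex.exp_ofReal_mul_I_re, Real.cos_neg]

lemma bb_zero : bb E 0 = 0 := by
  unfold bb
  simp

/-- **the logarithmic derivative** -/
theorem LD_re {σ t : ℝ} (hσ : 1 < σ) : -(logDeriv (LI (triv E)) ((σ : ℂ) + t * I)).re =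
    ∑' n : ℕ, bb E n * (n : ℝ) ^ (-σ) * Real.cos (t * Real.log n) := by
  have hre : ((σ : ℂ) + t * I).re = σ := by simp
  have h1 : 1 < ((σ : ℂ) + t * I).re := by rw [hre]; exact hσ
  obtain ⟨A', hA', hd⟩ := Pool.Agent.Y772.DK.t_dirK E
  obtain ⟨-, -, hne, -⟩ := hd (triv E) triv_norm
  have key : logDeriv (LI (triv E)) ((σ : ℂ) + t * I) = deriv (LA (ee (triv E))) ((σ : ℂ) + t * I) := by
    rw [logDeriv_apply, deriv_LI (triv E) triv_norm h1, mul_div_assoc, div_self (hne _ h1), mul_one]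
  have h2 : ∀ n : ℕ, cc (triv E) n * (ArithmeticFunction.vonMangoldt n : ℂ) * (n : ℂ) ^ (-((σ : ℂ) + t * I)) =
      (bb E n : ℂ) * (n : ℂ) ^ (-((σ : ℂ) + t * I)) := by
    intro n
    unfold bb
    rw [Complex.ofReal_mul, ← (cc_real E n).1]
  have hs : Summable fun n : ℕ => (bb E n : ℂ) * (n : ℂ) ^ (-((σ : ℂ) + t * I)) := by
    refine Summable.of_norm_bounded (g := fun n : ℕ => bb E n * (n : ℝ) ^ (-σ)) (bb_summable E hσ) fun n => ?_
    rcases eq_or_ne n 0 with rfl | hn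
    · rw [bb_zero]; simp
    · rw [norm_mul, Complex.norm_real, Real.norm_of_nonneg (bb_nonneg E n),
        Complex.norm_natCast_cpow_of_pos (Nat.pos_of_ne_zero hn), Complex.neg_re, hre]
  rw [key, D_eq (triv E) triv_norm h1, Complex.neg_re, neg_neg, tsum_congr h2, Complex.re_tsum hs]
  refine tsum_congr fun n => ?_
  rcases eq_or_ne n 0 with rfl | hn
  · rw [bb_zero]; simp
  · exact term_re hn σ t

lemma LD_le {σ : ℝ} (hσ : 3 / 2 ≤ σ) : -(logDeriv (LI (triv E)) (σ : ℂ)).re ≤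
    Module.finrank ℚ E * ∑' n : ℕ, ArithmeticFunction.vonMangoldt n * (n : ℝ) ^ (-(3 / 2 : ℝ)) := by
  have h1 := LD_re E (σ := σ) (t := 0) (by linarith)
  have e : ((σ : ℂ) + ((0 : ℝ) : ℂ) * I) = (σ : ℂ) := by simp
  rw [e] at h1
  rw [h1, ← tsum_mul_left]
  have hs := bb_summable E (σ := σ) (by linarith)
  have h2 : ∀ n : ℕ, bb E n * (n : ℝ) ^ (-σ) * Real.cos (0 * Real.log n) = bb E n * (n : ℝ) ^ (-σ) := by
    intro n
    rw [zero_mul, Real.cos_zero, mul_one]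
  rw [tsum_congr h2]
  refine Summable.tsum_le_tsum (fun n => ?_) hs ((vM_summable (σ := 3 / 2) (by norm_num)).mul_left _)
  rw [← mul_assoc]
  rcases eq_or_ne n 0 with rfl | hn
  · rw [bb_zero]; simp
  · refine mul_le_mul (bb_le E n) ?_ (Real.rpow_nonneg (Nat.cast_nonneg n) _)
      (mul_nonneg (Nat.cast_nonneg _) ArithmeticFunction.vonMangoldt_nonneg)
    exact Real.rpow_le_rpow_of_exponent_le (by exact_mod_cast Nat.pos_of_ne_zero hn) (by linarith)

end Pool.Agent.K4H57.EC
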