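import Pool.Agent.K4H57.EC.Stech
import Pool.Agent.K4H57.EC.Dser

set_option autoImplicit false

/-!
# The upper bound for `-ζ'/ζ` of a number field near `s = 1`
-/

open NumberField Complex Filter Topology Set
open scoped ComplexConjugate

namespace Pool.Agent.K4H57.EC

open Pool.Agent.Y773 Pool.Agent.R362.Near Pool.Agent.R362.HL
open Pool.Agent.Y773.G

/-- the constant of Stechkin -/
noncomputable def qS : ℝ := (1 - 1 / √5) / 2

lemma gam_bd : ∃ G : ℝ, 0 ≤ G ∧ ∀ w : ℂ, 1 ≤ w.re → w.re ≤ 6 → |w.im| ≤ 1 → |(logDeriv Gammaℝ w).re| ≤ G := by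
  have hU : IsOpen {w : ℂ | 0 < w.re} := isOpen_lt continuous_const Complex.continuous_re
  have hd : DifferentiableOn ℂ Gammaℝ {w : ℂ | 0 < w.re} := fun w hw => (GR_diff hw).differentiableWithinAt
  have hd2 := hd.deriv hU
  have hc : ContinuousOn (logDeriv Gammaℝ) {w : ℂ | 0 < w.re} := by
    have : logDeriv Gammaℝ = fun w => deriv Gammaℝ w / Gammaℝ w := by
      funext w
      rw [logDeriv_apply]
    rw [this]
    exact hd2.continuousOn.div hd.continuousOn fun w hw => Gammaℝ_ne_zero_of_re_pos hw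
  have hK : IsCompact (Set.Icc (1 : ℝ) 6 ×ℂ Set.Icc (-1 : ℝ) 1) := IsCompact.reProdIm isCompact_Icc isCompact_Icc
  have hsub : (Set.Icc (1 : ℝ) 6 ×ℂ Set.Icc (-1 : ℝ) 1) ⊆ {w : ℂ | 0 < w.re} := by
    intro w hw
    have := (Complex.mem_reProdIm.1 hw).1.1
    show 0 < w.re
    linarith
  obtain ⟨G, hG⟩ := hK.exists_bound_of_continuousOn (hc.mono hsub)
  refine ⟨|G|, abs_nonneg G, fun w h1 h2 h3 => ?_⟩
  have h4 := hG w (Complex.mem_reProdIm.2 ⟨⟨h1, h2⟩, abs_le.1 h3⟩)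
  exact (Complex.abs_re_le_norm _).trans (h4.trans (le_abs_self G))

/-- Stechkin's inequality for the completed zeta function -/
theorem IsXi_stech {E : Type} [Field E] [NumberField E] {X : ℂ → ℂ} (h : IsXi E X) {c c1 y : ℝ}
    (hc : 1 / 2 < c) (hc1 : c1 ^ 2 = c ^ 2 + 1) (hc10 : 0 < c1) :
    c / c1 * (logDeriv X (((1 / 2 + c1 : ℝ) : ℂ) + y * I)).re ≤ (logDeriv X (((1 / 2 + c : ℝ) : ℂ) + y * I)).re := by
  obtain ⟨d, hd0, hd⟩ := h.rot
  obtain ⟨Y, hY⟩ : ∃ Y : ℂ → ℂ, Y = fun z => d * X (1 / 2 + z) := ⟨_, rfl⟩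
  have hre : ∀ z : ℂ, (1 / 2 + z).re = 1 / 2 + z.re := by
    intro z
    have : (1 / 2 : ℂ) = ((1 / 2 : ℝ) : ℂ) := by push_cast; ring
    rw [Complex.add_re, this, Complex.ofReal_re]
  have hYd : Differentiable ℂ Y := by
    rw [hY]
    exact (h.diff.comp (by fun_prop)).const_mul d
  have hYs : ∀ z : ℂ, Y (-(conj z)) = conj (Y z) := by
    rw [hY]
    exact hd
  have hYg : Gr Y := by
    rw [hY]
    exact h.gr hd
  have hYst : ∀ z : ℂ, Y z = 0 → |z.re| ≤ 1 / 2 := by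
    intro z hz
    rw [hY] at hz
    have h1 := h.strip0 ((mul_eq_zero.1 hz).resolve_left hd0)
    rw [hre] at h1
    rw [abs_le]
    constructor <;> linarith [h1.1, h1.2]
  have hYne : ∃ z, Y z ≠ 0 := ⟨1, fun h0 => by
    have := hYst 1 h0
    norm_num at this⟩
  have happ := Pool.Agent.Y275.GL.had1 Y hYd hYs hYne hYg hYst
  have key := stech_lim happ hYd hYs hYst (y := y) hc hc1 hc10
  have hld : ∀ z s : ℂ, s = 1 / 2 + z → logDeriv Y z = logDeriv X s := by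
    intro z s hs
    have h1 : deriv Y z = d * deriv X s := by
      have h2 : HasDerivAt (fun z : ℂ => 1 / 2 + z) 1 z := (hasDerivAt_id z).const_add _
      have h3 : HasDerivAt X (deriv X s) (1 / 2 + z) := by
        rw [← hs]
        exact (h.diff s).hasDerivAt
      have h4 := (HasDerivAt.comp (h₂ := X) (h := fun z : ℂ => 1 / 2 + z) z h3 h2).const_mul d
      rw [mul_one] at h4
      rw [hY]
      exact h4.deriv
    have h5 : Y z = d * X s := by
      rw [hY]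
      show d * X (1 / 2 + z) = _
      rw [hs]
    rw [logDeriv_apply, logDeriv_apply, h1, h5, mul_div_mul_left _ _ hd0]
  rw [hld (c1 + y * I) (((1 / 2 + c1 : ℝ) : ℂ) + y * I) (by push_cast; ring),
    hld (c + y * I) (((1 / 2 + c : ℝ) : ℂ) + y * I) (by push_cast; ring)] at key
  exact key

lemma lgd_nonneg (E : Type) [Field E] [NumberField E] : 0 ≤ lgd E := Real.log_natCast_nonneg _

/-- **The upper bound** -/
theorem LI_upper (n : ℕ) : ∃ C : ℝ, 0 ≤ C ∧ ∀ (E : Type) [Field E] [NumberField E], Module.finrank ℚ E = n →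
    ∀ σ t : ℝ, 1 < σ → σ ≤ 2 → |t| ≤ 1 → -(logDeriv (LI (triv E)) ((σ : ℂ) + t * I)).re ≤
      (σ - 1) / ((σ - 1) ^ 2 + t ^ 2) + (qS * lgd E + C) := by
  obtain ⟨G, hG0, hG⟩ := gam_bd
  obtain ⟨V, hV⟩ : ∃ V : ℝ, V = ∑' n : ℕ, ArithmeticFunction.vonMangoldt n * (n : ℝ) ^ (-(3 / 2 : ℝ)) := ⟨_, rfl⟩
  have hV0 : 0 ≤ V := by
    rw [hV]
    exact tsum_nonneg fun n => mul_nonneg ArithmeticFunction.vonMangoldt_nonneg (Real.rpow_nonneg (Nat.cast_nonneg n) _)
  refine ⟨1 + 2 * (n * G) + n * V, by positivity, fun E _ _ hE σ t hσ hσ2 ht => ?_⟩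
  obtain ⟨X, hX⟩ := exists_xi E
  have hX' : IsXi E X := hX
  obtain ⟨c, hc⟩ : ∃ c : ℝ, c = σ - 1 / 2 := ⟨_, rfl⟩
  obtain ⟨c1, hc1⟩ : ∃ c1 : ℝ, c1 = √(c ^ 2 + 1) := ⟨_, rfl⟩
  have hcg : 1 / 2 < c := by rw [hc]; linarith
  have hcl : c ≤ 3 / 2 := by rw [hc]; linarith
  have hc1s : c1 ^ 2 = c ^ 2 + 1 := by rw [hc1]; exact Real.sq_sqrt (by positivity)
  have hc10 : 0 < c1 := by rw [hc1]; positivity
  have hc1g : 1 < c1 := by nlinarith
  have hc1l : c1 ≤ 2 := by nlinarith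
  have hκ1 : c / c1 ≤ 1 := by rw [div_le_one hc10]; nlinarith
  have hκ0 : 0 ≤ c / c1 := by positivity
  have h5 : 0 < √5 := by positivity
  have h5s : √5 ^ 2 = 5 := Real.sq_sqrt (by norm_num)
  have hκ : 1 / √5 ≤ c / c1 := by
    rw [div_le_div_iff₀ h5 hc10, one_mul]
    have h6 : c1 ^ 2 ≤ (c * √5) ^ 2 := by
      rw [mul_pow, h5s, hc1s]
      nlinarith
    exact (pow_le_pow_iff_left₀ hc10.le (by positivity) (by norm_num)).1 h6
  have key := IsXi_stech hX' (y := t) hcg hc1s hc10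
  obtain ⟨σ1, hσ1⟩ : ∃ σ1 : ℝ, σ1 = 1 / 2 + c1 := ⟨_, rfl⟩
  have e0 : (1 / 2 + c : ℝ) = σ := by rw [hc]; ring
  rw [e0, ← hσ1] at key
  have hσ11 : 3 / 2 ≤ σ1 := by rw [hσ1]; linarith
  have hσ12 : σ1 ≤ 5 / 2 := by rw [hσ1]; linarith
  have hre : ∀ x : ℝ, ((x : ℂ) + t * I).re = x := fun x => by simp
  have him : ∀ x : ℝ, ((x : ℂ) + t * I).im = t := fun x => by simp
  have hinv : ∀ x : ℝ, 0 < x → (1 / ((x : ℂ) + t * I)).re = x / (x ^ 2 + t ^ 2) := by
    intro x hx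
    rw [one_div, Complex.inv_re, Complex.normSq_apply, hre, him, pow_two, pow_two]
  have e1 := congrArg Complex.re (hX'.logDeriv_eq (s := (σ : ℂ) + t * I) (by rw [hre]; exact hσ))
  have e2 := congrArg Complex.re (hX'.logDeriv_eq (s := (σ1 : ℂ) + t * I) (by rw [hre]; linarith))
  rw [Complex.add_re, Complex.add_re, Complex.add_re, Complex.add_re, Complex.re_sum, Complex.ofReal_re] at e1 e2
  have s1 : (σ : ℂ) + t * I - 1 = ((σ - 1 : ℝ) : ℂ) + t * I := by push_cast; ring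
  have s2 : (σ1 : ℂ) + t * I - 1 = ((σ1 - 1 : ℝ) : ℂ) + t * I := by push_cast; ring
  rw [s1, hinv σ (by linarith), hinv (σ - 1) (by linarith)] at e1
  rw [s2, hinv σ1 (by linarith), hinv (σ1 - 1) (by linarith)] at e2
  -- the Gamma factors
  have hex : ∀ φ : E →+* ℂ, ex (fun _ : InfinitePlace E => 0) φ ≤ 1 := by
    intro φ
    unfold ex
    split_ifs <;> norm_num
  have hgam : ∀ x : ℝ, 1 ≤ x → x ≤ 5 → |∑ φ : E →+* ℂ, (logDeriv Complex.Gammaℝ (((x : ℂ) + t * I) +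
      (ex (fun _ : InfinitePlace E => 0) φ : ℕ))).re| ≤ n * G := by
    intro x hx1 hx2
    refine (Finset.abs_sum_le_sum_abs _ _).trans ?_
    have h6 : ∀ φ : E →+* ℂ, |(logDeriv Complex.Gammaℝ (((x : ℂ) + t * I) +
        (ex (fun _ : InfinitePlace E => 0) φ : ℕ))).re| ≤ G := by
      intro φ
      have h7 : ((ex (fun _ : InfinitePlace E => 0) φ : ℕ) : ℝ) ≤ 1 := by exact_mod_cast hex φ
      have h8 : (0 : ℝ) ≤ ((ex (fun _ : InfinitePlace E => 0) φ : ℕ) : ℝ) := Nat.cast_nonneg _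
      have r1 : (((x : ℂ) + t * I) + ((ex (fun _ : InfinitePlace E => 0) φ : ℕ) : ℂ)).re =
          x + ((ex (fun _ : InfinitePlace E => 0) φ : ℕ) : ℝ) := by
        rw [Complex.add_re, hre, Complex.natCast_re]
      have r2 : (((x : ℂ) + t * I) + ((ex (fun _ : InfinitePlace E => 0) φ : ℕ) : ℂ)).im = t := by
        rw [Complex.add_im, him, Complex.natCast_im, add_zero]
      exact hG _ (by rw [r1]; linarith) (by rw [r1]; linarith) (by rw [r2]; exact ht)
    refine (Finset.sum_le_sum fun φ _ => h6 φ).trans ?_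
    rw [Finset.sum_const, nsmul_eq_mul, Finset.card_univ, card_emb, hE]
  have g1 := (abs_le.1 (hgam σ hσ.le (by linarith))).2
  have g2 := (abs_le.1 (hgam σ1 (by linarith) (by linarith))).1
  -- the value at the second point
  have d1 : -(n * V) ≤ (logDeriv (LI (triv E)) ((σ1 : ℂ) + t * I)).re := by
    have h6 := norm_logDeriv_LI (E := E) (σ := σ1) (t := t) (by linarith)
    have h7 := LD_le E hσ11
    rw [hE, ← hV] at h7
    have h8 := (abs_le.1 ((Complex.abs_re_le_norm _).trans (h6.trans h7))).1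
    exact h8
  have p1 : 0 ≤ σ1 / (σ1 ^ 2 + t ^ 2) := by positivity
  have p2 : 0 ≤ (σ1 - 1) / ((σ1 - 1) ^ 2 + t ^ 2) := by
    have : 0 < σ1 - 1 := by linarith
    positivity
  have p3 : σ / (σ ^ 2 + t ^ 2) ≤ 1 := by
    rw [div_le_one (by positivity)]
    nlinarith [sq_nonneg t]
  have hlg := lgd_nonneg E
  -- the right-hand side of the inequality
  have k1 : lgd E / 2 - (n * G + n * V) ≤ (logDeriv X ((σ1 : ℂ) + t * I)).re := by
    rw [e2]
    linarith
  have k2 : c / c1 * (lgd E / 2 - (n * G + n * V)) ≤ (logDeriv X ((σ : ℂ) + t * I)).re :=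
    (mul_le_mul_of_nonneg_left k1 hκ0).trans key
  have k3 : c / c1 * (n * G + n * V) ≤ n * G + n * V := by
    have : (0 : ℝ) ≤ n * G + n * V := by positivity
    exact mul_le_of_le_one_left this hκ1
  have k4 : 1 / √5 * (lgd E / 2) ≤ c / c1 * (lgd E / 2) := mul_le_mul_of_nonneg_right hκ (by linarith)
  have k5 : qS * lgd E = lgd E / 2 - 1 / √5 * (lgd E / 2) := by
    unfold qS
    ring
  rw [e1] at k2
  rw [k5]
  nlinarith

end Pool.Agent.K4H57.EC
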