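import Pool.Agent.K4H57.EC.Split
import Pool.Agent.K4H57.EC.Upper
import Pool.Agent.K4H57.EC.Gauss
import Pool.Agent.K4H57.EC.Low

set_option autoImplicit false

/-!
# A field whose small primes split has a large discriminant
-/

open NumberField Polynomial Ideal

namespace Pool.Agent.K4H57.EC

open Pool.Agent.Y773 Pool.Agent.R362.Near Pool.Agent.R362.HL

/-- a lower bound for the integral of the weight -/
noncomputable def I1 (c : ℝ) : ℝ := 1 - c / 3 + c ^ 2 / 10 - c ^ 3 / 42

lemma exp_low {z : ℝ} (h0 : 0 ≤ z) (h1 : z ≤ 1) : 1 - z + z ^ 2 / 2 - z ^ 3 / 6 ≤ Real.exp (-z) := by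
  have h := Real.exp_bound (x := -z) (by rw [abs_neg, abs_of_nonneg h0]; exact h1) (n := 5) (by norm_num)
  rw [abs_neg, abs_of_nonneg h0] at h
  have h2 := (abs_le.1 h).1
  simp only [Finset.sum_range_succ, Finset.sum_range_zero, Nat.factorial] at h2
  norm_num at h2
  have h3 : z ^ 5 ≤ z ^ 4 := pow_le_pow_of_le_one h0 h1 (by norm_num)
  have h4 : 0 ≤ z ^ 4 := by positivity
  nlinarith

lemma riem {c : ℝ} (hc : 0 < c) (hc1 : c ≤ 1) {K : ℕ} (hK : 0 < K) :
    I1 c - 1 / K ≤ (∑ j ∈ Finset.range K, ph c ((j + 1) / K)) / K := by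
  have hK0 : (0 : ℝ) < K := by exact_mod_cast hK
  have hanti : AntitoneOn (fun x : ℝ => ph c (x / K)) (Set.Icc (0 : ℝ) (0 + (K : ℕ))) := by
    intro s hs t ht hst
    exact ph_anti hc (div_nonneg hs.1 hK0.le) (by gcongr)
  have h1 := hanti.integral_le_sum
  have h2 : ∫ x in (0 : ℝ)..(0 + (K : ℕ)), ph c (x / K) = K * ∫ x in (0 : ℝ)..1, ph c x := by
    rw [intervalIntegral.integral_comp_div (fun x => ph c x) hK0.ne', zero_div, zero_add, div_self hK0.ne', smul_eq_mul]
  have h3 : I1 c ≤ ∫ x in (0 : ℝ)..1, ph c x := by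
    have e : I1 c = ∫ x in (0 : ℝ)..1, (1 - c * x ^ 2 + c ^ 2 / 2 * x ^ 4 - c ^ 3 / 6 * x ^ 6) := by
      rw [intervalIntegral.integral_sub, intervalIntegral.integral_add, intervalIntegral.integral_sub]
      · simp only [intervalIntegral.integral_const_mul, integral_pow, intervalIntegral.integral_const, smul_eq_mul]
        unfold I1
        norm_num
        ring
      all_goals (apply Continuous.intervalIntegrable; fun_prop)
    rw [e]
    refine intervalIntegral.integral_mono_on (by norm_num) ?_ ?_ ?_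
    · apply Continuous.intervalIntegrable; fun_prop
    · apply Continuous.intervalIntegrable; unfold ph; fun_prop
    · intro x hx
      have h4 : 0 ≤ c * x ^ 2 := by positivity
      have h5 : c * x ^ 2 ≤ 1 := by
        have : x ^ 2 ≤ 1 := pow_le_one₀ hx.1 hx.2
        nlinarith
      have h6 := exp_low h4 h5
      unfold ph
      rw [neg_mul]
      refine le_trans (le_of_eq ?_) h6
      ring
  rw [h2] at h1
  have h4 : ∑ j ∈ Finset.range K, ph c ((0 + (j : ℝ)) / K) ≤ ∑ j ∈ Finset.range K, ph c (((j : ℝ) + 1) / K) + 1 := by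
    have h5 : ∑ j ∈ Finset.range (K + 1), ph c ((j : ℝ) / K) = ∑ j ∈ Finset.range K, ph c (((j : ℝ) + 1) / K) + ph c 0 := by
      rw [Finset.sum_range_succ']
      push_cast
      simp
    rw [Finset.sum_range_succ] at h5
    have h6 : ph c 0 = 1 := by unfold ph; simp
    have h7 : 0 ≤ ph c ((K : ℝ) / K) := by unfold ph; positivity
    rw [h6] at h5
    simp only [zero_add]
    linarith
  rw [le_div_iff₀ hK0]
  have h5 : (I1 c - 1 / K) * K = K * I1 c - 1 := by field_simp
  rw [h5]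
  have h6 := mul_le_mul_of_nonneg_left h3 hK0.le
  linarith

/-- a field whose small primes split completely has a large discriminant -/
theorem anal {c : ℝ} (hc : 0 < c) (hc1 : c ≤ 1) (k : ℕ) {A : ℝ} {m : ℕ} (hm : 0 < m) {κ : ℝ} (hκ : 0 ≤ κ)
    (hgap : qS * κ + √(Real.pi / c) / 2 < m * I1 c) : ∃ L0 : ℝ, ∀ L : ℝ, L0 ≤ L → ∀ f : ℤ[X], f.natDegree = m →
    ∀ (E : Type) [Field E] [NumberField E] (θ : 𝓞 E), minpoly ℤ θ = f →
    Algebra.adjoin ℚ {algebraMap (𝓞 E) E θ} = ⊤ → Module.finrank ℚ E = m → ∀ D : ℕ, D ≠ 0 → Real.log D ≤ A * L →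
    (∀ p : ℕ, p.Prime → k < p → (p : ℝ) ≤ Real.exp L → ¬ p ∣ D → (f.map (Int.castRingHom (ZMod p))).Splits) →
    κ * L ≤ Real.log (MM θ) := by
  classical
  obtain ⟨C, hC0, hC⟩ := LI_upper m
  have hm0 : (0 : ℝ) < m := by exact_mod_cast hm
  have hm1 : (1 : ℝ) ≤ m := by exact_mod_cast hm
  have hpi := Real.pi_pos
  obtain ⟨g, hg⟩ : ∃ g : ℝ, g = m * I1 c - (qS * κ + √(Real.pi / c) / 2) := ⟨_, rfl⟩
  have hg0 : 0 < g := by rw [hg]; linarith
  have hqS : 0 ≤ qS := by
    unfold qS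
    have : 1 / √5 ≤ 1 := by
      rw [div_le_one (by positivity)]
      exact Real.one_le_sqrt.2 (by norm_num)
    linarith
  have hI1 : I1 c ≤ 1 := by
    unfold I1
    have : c ^ 2 ≤ c := by nlinarith
    have h3 : 0 < c ^ 3 := by positivity
    linarith
  have hgm : g ≤ m := by
    have h1 : 0 ≤ qS * κ := mul_nonneg hqS hκ
    have h2 : 0 ≤ √(Real.pi / c) := Real.sqrt_nonneg _
    have h3 : m * I1 c ≤ m := by nlinarith
    rw [hg]; linarith
  obtain ⟨η, hη⟩ : ∃ η : ℝ, η = g / (8 * m) := ⟨_, rfl⟩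
  have hη0 : 0 < η := by rw [hη]; positivity
  have hη1 : η ≤ 1 / 8 := by
    rw [hη, div_le_iff₀ (by positivity)]; linarith
  obtain ⟨K, hK⟩ := exists_nat_gt (1 / η)
  have hK0 : 0 < K := by
    have : (0 : ℝ) < K := lt_trans (by positivity) hK
    exact_mod_cast this
  have hK0' : (0 : ℝ) < K := by exact_mod_cast hK0
  have hKη : 1 / (K : ℝ) ≤ η := by
    rw [div_le_iff₀ hK0']
    rw [div_lt_iff₀ hη0] at hK
    linarith
  obtain ⟨L1, h1⟩ := low_sum c hc k K hK0 η (A + κ) hη0
  obtain ⟨B, hB⟩ : ∃ B : ℝ, B = (1 / η + qS * κ + C) * (4 * c * √2) := ⟨_, rfl⟩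
  have hB0 : 0 ≤ B := by
    rw [hB]
    have := mul_nonneg hqS hκ
    positivity
  refine ⟨max (max L1 1) ((C + B) * (2 / g)), fun L hL f hf E _ _ θ hθf hθ hE D hD hlogD hs => ?_⟩
  have hLL1 : L1 ≤ L := ((le_max_left _ _).trans (le_max_left _ _)).trans hL
  have hL1 : 1 ≤ L := ((le_max_right _ _).trans (le_max_left _ _)).trans hL
  have hLB : (C + B) * (2 / g) ≤ L := (le_max_right _ _).trans hL
  have hL0 : 0 < L := by linarith
  by_contra hcon
  push Not at hcon
  have hMM0 : MM θ ≠ 0 := MM_ne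
  -- the lower bound
  have h2 := h1 L hLL1 (MM θ * D) (mul_ne_zero hMM0 hD) (by
    rw [Nat.cast_mul, Real.log_mul (by exact_mod_cast hMM0) (by exact_mod_cast hD)]
    linarith [add_mul A κ L])
  have h3 := riem hc hc1 hK0
  -- the upper bound
  obtain ⟨σ, hσ⟩ : ∃ σ : ℝ, σ = 1 + η / L := ⟨_, rfl⟩
  have hηL : η / L ≤ 1 := by rw [div_le_one hL0]; linarith
  have hηL0 : 0 < η / L := by positivity
  have hσ1 : 1 < σ := by rw [hσ]; linarith
  have hσ2 : σ ≤ 2 := by rw [hσ]; linarith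
  have hβ : 0 < L ^ 2 / (4 * c) := by positivity
  have hlgd : lgd E ≤ κ * L := (lgd_le hθ).trans hcon.le
  have hQ : 0 ≤ qS * lgd E + C := by
    have := mul_nonneg hqS (lgd_nonneg E)
    linarith
  have hup := gauss_avg (a := fun n => bb E n * (n : ℝ) ^ (-σ)) (u := fun n => Real.log n)
    (fun n => mul_nonneg (bb_nonneg E n) (Real.rpow_nonneg (Nat.cast_nonneg n) _)) (bb_summable E hσ1)
    (x := σ - 1) (β := L ^ 2 / (4 * c)) (Q := qS * lgd E + C) (by linarith) hβ hQ (fun t ht => by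
      have h4 := hC E hE σ t hσ1 hσ2 ht
      rw [LD_re E hσ1] at h4
      exact h4) (PS k (MM θ * D) L)
  have hσx : σ - 1 = η / L := by rw [hσ]; ring
  rw [hσx] at hup
  have e1 : √(Real.pi * (L ^ 2 / (4 * c))) = L * (√(Real.pi / c) / 2) := by
    have : Real.pi * (L ^ 2 / (4 * c)) = (L / 2) ^ 2 * (Real.pi / c) := by
      field_simp
      ring
    rw [this, Real.sqrt_mul (by positivity), Real.sqrt_sq (by positivity)]
    ring
  have e2 : (1 / (η / L) + (qS * lgd E + C)) * (√2 / (L ^ 2 / (4 * c))) ≤ B := by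
    have h4 : 1 / (η / L) + (qS * lgd E + C) ≤ L * (1 / η + qS * κ + C) := by
      have h5 : qS * lgd E ≤ qS * (κ * L) := mul_le_mul_of_nonneg_left hlgd hqS
      have h6 : C ≤ L * C := by nlinarith
      have h7 : 1 / (η / L) = L * (1 / η) := by field_simp
      rw [h7]
      nlinarith
    have h5 : √2 / (L ^ 2 / (4 * c)) = 4 * c * √2 / L ^ 2 := by field_simp
    have h6 : 0 ≤ √2 / (L ^ 2 / (4 * c)) := by positivity
    refine (mul_le_mul_of_nonneg_right h4 h6).trans ?_
    rw [h5, hB]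
    have h7 : L * (1 / η + qS * κ + C) * (4 * c * √2 / L ^ 2) = (1 / η + qS * κ + C) * (4 * c * √2) / L := by
      field_simp
    rw [h7]
    rw [hB] at hB0
    exact div_le_self hB0 hL1
  rw [e1] at hup
  have e3 : qS * lgd E ≤ L * (qS * κ) := by
    have := mul_le_mul_of_nonneg_left hlgd hqS
    linarith
  -- comparison
  have hlow : (m : ℝ) * (1 - η) * ∑ p ∈ PS k (MM θ * D) L, wp p * ph c (Real.log p / L) ≤
      ∑ n ∈ PS k (MM θ * D) L, bb E n * (n : ℝ) ^ (-σ) * Real.exp (-(Real.log n) ^ 2 / (4 * (L ^ 2 / (4 * c)))) := by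
    rw [Finset.mul_sum]
    refine Finset.sum_le_sum fun p hp => ?_
    unfold PS at hp
    rw [Finset.mem_filter, Finset.mem_Icc] at hp
    obtain ⟨⟨hp1, hp2⟩, hpp, hkp, hpd⟩ := hp
    have hpL : (p : ℝ) ≤ Real.exp L := (Nat.le_floor_iff (Real.exp_pos L).le).1 hp2
    have hp0 : (0 : ℝ) < p := by exact_mod_cast hpp.pos
    have hlogp : Real.log p ≤ L := by
      rw [Real.log_le_iff_le_exp hp0]
      exact hpL
    have hlogp0 : 0 ≤ Real.log p := Real.log_natCast_nonneg p
    have hsp := hs p hpp hkp hpL (fun h => hpd (dvd_mul_of_dvd_right h _))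
    rw [← hθf] at hsp
    have h4 := bb_split hθ hpp (fun h => hpd (dvd_mul_of_dvd_left h _)) hsp
    rw [hθf, hf] at h4
    have e4 : Real.exp (-(Real.log p) ^ 2 / (4 * (L ^ 2 / (4 * c)))) = ph c (Real.log p / L) := by
      unfold ph
      congr 1
      field_simp
    rw [e4]
    have h5 : (1 - η) / p ≤ (p : ℝ) ^ (-σ) := by
      have h6 : (p : ℝ) ^ (-σ) = (p : ℝ)⁻¹ * Real.exp (-(η / L * Real.log p)) := by
        rw [hσ, neg_add, Real.rpow_add hp0, Real.rpow_neg_one, Real.rpow_def_of_pos hp0]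
        congr 2
        ring
      rw [h6, div_eq_mul_inv, mul_comm]
      refine mul_le_mul_of_nonneg_left ?_ (by positivity)
      have h7 := Real.add_one_le_exp (-(η / L * Real.log p))
      have h8 : η / L * Real.log p ≤ η := by
        calc η / L * Real.log p ≤ η / L * L := mul_le_mul_of_nonneg_left hlogp hηL0.le
          _ = η := by field_simp
      linarith
    have hph : 0 ≤ ph c (Real.log p / L) := by unfold ph; positivity
    calc (m : ℝ) * (1 - η) * (wp p * ph c (Real.log p / L))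
        = (m * Real.log p) * ((1 - η) / p) * ph c (Real.log p / L) := by unfold wp; ring
      _ ≤ bb E p * (p : ℝ) ^ (-σ) * ph c (Real.log p / L) := by
          refine mul_le_mul_of_nonneg_right ?_ hph
          refine mul_le_mul h4 h5 ?_ (bb_nonneg E p)
          exact div_nonneg (by linarith) hp0.le
  have h4 := hlow.trans hup
  have h5 : (m : ℝ) * (1 - η) * (L * (I1 c - η - η)) ≤
      (m : ℝ) * (1 - η) * ∑ p ∈ PS k (MM θ * D) L, wp p * ph c (Real.log p / L) := by
    refine mul_le_mul_of_nonneg_left ?_ (mul_nonneg hm0.le (by linarith))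
    refine le_trans ?_ h2
    refine mul_le_mul_of_nonneg_left ?_ hL0.le
    linarith
  have h6 : L * (m * I1 c - 3 * (m * η)) ≤ (m : ℝ) * (1 - η) * (L * (I1 c - η - η)) := by
    have h7 : 0 ≤ L * m * η * (1 - (I1 c - η - η)) := by
      have : 0 ≤ 1 - (I1 c - η - η) := by linarith
      positivity
    nlinarith
  have h7 : m * η = g / 8 := by rw [hη]; field_simp
  rw [h7] at h6
  have h8 : C + B ≤ L * (g / 2) := by
    have h9 := mul_le_mul_of_nonneg_right hLB (by positivity : (0 : ℝ) ≤ g / 2)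
    have h10 : (C + B) * (2 / g) * (g / 2) = C + B := by field_simp
    linarith
  have h9 : 0 < L * g := by positivity
  have h10 : L * (m * I1 c) = L * g + L * (qS * κ) + L * (√(Real.pi / c) / 2) := by rw [hg]; ring
  nlinarith

end Pool.Agent.K4H57.EC
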