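import Pool.Agent.K4H57.EC.Fac

set_option autoImplicit false

/-!
# Factors of degree at least four, and the splitting over the integers
-/

open Polynomial Filter

namespace Pool.Agent.K4H57.EC

lemma gap_num {m : ℕ} (hm : 4 ≤ m) : qS * (2 * (m - 1) * 1.312) + √(Real.pi / (3 / 5)) / 2 < m * I1 (3 / 5) := by
  have h5 : √5 ≤ 2.2360680 := by
    rw [Real.sqrt_le_left (by norm_num)]
    norm_num
  have h50 : (0 : ℝ) < √5 := by positivity
  have hq : qS ≤ 0.2763933 := by
    unfold qS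
    have : (0.4472134 : ℝ) ≤ 1 / √5 := by
      rw [le_div_iff₀ h50]
      nlinarith
    linarith
  have hpi : √(Real.pi / (3 / 5)) ≤ 2.28825 := by
    rw [Real.sqrt_le_left (by norm_num)]
    have := Real.pi_lt_d4
    have h : Real.pi / (3 / 5) = Real.pi * (5 / 3) := by ring
    rw [h]
    norm_num
    linarith
  have hm4 : (4 : ℝ) ≤ m := by exact_mod_cast hm
  have h1 : qS * (2 * (m - 1) * 1.312) ≤ 0.2763933 * (2 * (m - 1) * 1.312) :=
    mul_le_mul_of_nonneg_right hq (by nlinarith)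
  have h2 : I1 (3 / 5) = 1 - 1 / 5 + 9 / 250 - 27 / 5250 := by
    unfold I1
    norm_num
  rw [h2]
  have h3 : (0.2763933 : ℝ) * (2 * (m - 1) * 1.312) + 2.28825 / 2 < m * (1 - 1 / 5 + 9 / 250 - 27 / 5250) := by
    norm_num
    linarith
  linarith

/-- degree at least four -/
lemma big_case (r m : ℕ) (hm : 4 ≤ m) : ∀ᶠ y : ℕ in atTop, ∀ f : ℤ[X], f.Monic → Irreducible f → f.natDegree = m →
    ∀ D : ℤ, D ≠ 0 → |(D : ℝ)| ≤ (y : ℝ) ^ (7 : ℝ) → mh f ≤ (y : ℝ) ^ (1.311 : ℝ) →
    (∀ p : ℕ, p.Prime → r < p → p ≤ y → ¬ (p : ℤ) ∣ D → (f.map (Int.castRingHom (ZMod p))).Splits) → False := by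
  have hm4 : (4 : ℝ) ≤ m := by exact_mod_cast hm
  obtain ⟨L0, hL0⟩ := anal (c := 3 / 5) (by norm_num) (by norm_num) r (A := 7) (m := m) (by omega)
    (κ := 2 * (m - 1) * 1.312) (by nlinarith) (gap_num hm)
  have tc : Tendsto (fun q : ℕ => Real.log (q : ℝ)) atTop atTop :=
    Real.tendsto_log_atTop.comp tendsto_natCast_atTop_atTop
  filter_upwards [tc.eventually_ge_atTop L0, tc.eventually_gt_atTop (500 * (m : ℝ)), eventually_ge_atTop 1]
    with y hy1 hy2 hy3 f hf hi hfm D hD hDy hM hs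
  have hyr : (1 : ℝ) ≤ y := by exact_mod_cast hy3
  have hy0 : (0 : ℝ) < y := lt_of_lt_of_le one_pos hyr
  obtain ⟨E, _, _, θ, h1, h2, h3⟩ := exists_field hf hi
  have h4 := hL0 (Real.log y) hy1 f hfm E θ h1 h2 (by rw [h3, hfm]) D.natAbs (by simpa using hD) (by
    rw [Nat.cast_natAbs, Int.cast_abs, ← Real.log_rpow hy0]
    exact Real.log_le_log (by simpa using hD) hDy) (by
    intro p hp hrp hpy hpD
    rw [Real.exp_log hy0] at hpy
    refine hs p hp hrp (by exact_mod_cast hpy) (fun h => hpD ?_)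
    exact Int.natCast_dvd.1 h)
  obtain ⟨n, rfl⟩ : ∃ n, m = n + 2 := ⟨m - 2, by omega⟩
  have h5 := log_MM_le h2 (by rw [h1, h3]) (n := n) (by rw [h1, hfm])
  rw [h1] at h5
  have h6 : Real.log (mh f) ≤ 1.311 * Real.log y := by
    rw [← Real.log_rpow hy0]
    exact Real.log_le_log (lt_of_lt_of_le one_pos (mh_one hf)) hM
  have h7 : Real.log ((f.map (Int.castRingHom ℂ)).mahlerMeasure) ≤ 1.311 * Real.log y := h6
  have hlog2 : Real.log 2 ≤ 1 := by
    have := Real.log_two_lt_d9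
    linarith
  push_cast at h4 hy2 hm4
  have hn0 : (0 : ℝ) ≤ n := Nat.cast_nonneg n
  have h8 : ((n : ℝ) + 1) * (n + 2) * Real.log 2 ≤ (n + 1) * (n + 2) := by
    have : 0 ≤ ((n : ℝ) + 1) * (n + 2) := by positivity
    nlinarith
  have h9 : 2 * ((n : ℝ) + 1) * Real.log ((f.map (Int.castRingHom ℂ)).mahlerMeasure) ≤
      2 * (n + 1) * (1.311 * Real.log y) := mul_le_mul_of_nonneg_left h7 (by positivity)
  have h10 : 2 * ((n : ℝ) + 2 - 1) * 1.312 * Real.log y ≤ (n + 1) * (n + 2) + 2 * (n + 1) * (1.311 * Real.log y) := by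
    linarith
  have h11 : ((n : ℝ) + 1) * (0.002 * Real.log y - (n + 2)) ≤ 0 := by
    norm_num at h10 ⊢
    nlinarith
  have h12 : 0 < 0.002 * Real.log y - (n + 2) := by
    norm_num
    linarith
  have h13 : 0 < ((n : ℝ) + 1) * (0.002 * Real.log y - (n + 2)) := mul_pos (by positivity) h12
  linarith

/-- all degrees -/
lemma factor_deg (r : ℕ) : ∀ᶠ y : ℕ in atTop, ∀ f : ℤ[X], f.Monic → Irreducible f → f.natDegree ≤ r →
    ∀ D : ℤ, D ≠ 0 → |(D : ℝ)| ≤ (y : ℝ) ^ (7 : ℝ) → mh f ≤ (y : ℝ) ^ (1.311 : ℝ) →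
    (∀ p : ℕ, p.Prime → r < p → p ≤ y → ¬ (p : ℤ) ∣ D → (f.map (Int.castRingHom (ZMod p))).Splits) →
    f.natDegree = 1 := by
  have h : ∀ᶠ y : ℕ in atTop, ∀ m ∈ Finset.range (r + 1), 4 ≤ m → ∀ f : ℤ[X], f.Monic → Irreducible f →
      f.natDegree = m → ∀ D : ℤ, D ≠ 0 → |(D : ℝ)| ≤ (y : ℝ) ^ (7 : ℝ) → mh f ≤ (y : ℝ) ^ (1.311 : ℝ) →
      (∀ p : ℕ, p.Prime → r < p → p ≤ y → ¬ (p : ℤ) ∣ D → (f.map (Int.castRingHom (ZMod p))).Splits) → False := by
    rw [Filter.eventually_all_finset]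
    intro m _
    by_cases hm : 4 ≤ m
    · filter_upwards [big_case r m hm] with y hy _
      exact hy
    · exact Filter.Eventually.of_forall fun y h => absurd h hm
  filter_upwards [h, quad_case r, cub_case r] with y h4 h2 h3 f hf hi hd D hD hDy hM hs
  have h0 : f.natDegree ≠ 0 := by
    intro h0
    have : f = 1 := eq_one_of_monic_natDegree_zero hf h0
    rw [this] at hi
    exact not_irreducible_one hi
  by_contra h1
  rcases (by omega : f.natDegree = 2 ∨ f.natDegree = 3 ∨ 4 ≤ f.natDegree) with h | h | h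
  · exact h2 f hf hi h D hD hDy hM hs
  · exact h3 f hf hi h D hD hDy hM hs
  · exact h4 f.natDegree (Finset.mem_range.2 (by omega)) h f hf hi rfl D hD hDy hM hs

/-- **A polynomial of small height that splits modulo the small primes splits.** -/
theorem all_split (r : ℕ) : ∀ᶠ y : ℕ in atTop, ∀ F : ℤ[X], F.Monic → F.natDegree = r →
    ∀ D : ℤ, D ≠ 0 → |(D : ℝ)| ≤ (y : ℝ) ^ (7 : ℝ) → mh F ≤ (y : ℝ) ^ (1.311 : ℝ) →
    (∀ p : ℕ, p.Prime → r < p → p ≤ y → ¬ (p : ℤ) ∣ D → (F.map (Int.castRingHom (ZMod p))).Splits) →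
    ∃ b : Multiset ℤ, Multiset.card b = r ∧ F = (b.map fun x => X - C x).prod := by
  filter_upwards [factor_deg r] with y hy F hF hr D hD hDy hM hs
  have key : ∀ n : ℕ, ∀ G : ℤ[X], G.Monic → G.natDegree = n → G ∣ F →
      ∃ b : Multiset ℤ, Multiset.card b = n ∧ G = (b.map fun x => X - C x).prod := by
    intro n
    induction n with
    | zero =>
        intro G hG h0 _
        exact ⟨0, rfl, by rw [eq_one_of_monic_natDegree_zero hG h0]; simp⟩
    | succ n ih =>
        intro G hG hn hGF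
        obtain ⟨i, hi, hiG⟩ := WfDvdMonoid.exists_irreducible_factor (a := G) (fun h => by
          rw [hG.isUnit_iff] at h
          rw [h, natDegree_one] at hn
          omega) hG.ne_zero
        -- a monic one
        obtain ⟨f, hf, hfi, hfG⟩ : ∃ f : ℤ[X], f.Monic ∧ Irreducible f ∧ f ∣ G := by
          obtain ⟨q, hq⟩ := hiG
          have h1 : i.leadingCoeff * q.leadingCoeff = 1 := by
            rw [← leadingCoeff_mul, ← hq]
            exact hG
          rcases Int.eq_one_or_neg_one_of_mul_eq_one h1 with h | h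
          · exact ⟨i, h, hi, ⟨q, hq⟩⟩
          · refine ⟨-i, ?_, (Associated.irreducible_iff (Associated.neg_left (Associated.refl i))).2 hi, ⟨-q, by rw [hq]; ring⟩⟩
            rw [Monic, leadingCoeff_neg, h]
            norm_num
        have hfF : f ∣ F := hfG.trans hGF
        have hfr : f.natDegree ≤ r := by
          rw [← hr]
          exact natDegree_le_of_dvd hfF hF.ne_zero
        have h1 := hy f hf hfi hfr D hD hDy ((mh_dvd hF hf hfF).trans hM) (by
          intro p hp hrp hpy hpD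
          haveI : Fact p.Prime := ⟨hp⟩
          exact (hs p hp hrp hpy hpD).of_dvd (hF.map _).ne_zero (Polynomial.map_dvd _ hfF))
        obtain ⟨G', hG'⟩ := hfG
        have hG'm : G'.Monic := Monic.of_mul_monic_left hf (by rw [← hG']; exact hG)
        have h2 : G'.natDegree = n := by
          have := hf.natDegree_mul hG'm
          rw [← hG', hn, h1] at this
          omega
        obtain ⟨b, hb1, hb2⟩ := ih G' hG'm h2 (Dvd.dvd.trans ⟨f, by rw [hG']; ring⟩ hGF)
        refine ⟨(-f.coeff 0) ::ₘ b, by rw [Multiset.card_cons, hb1], ?_⟩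
        rw [Multiset.map_cons, Multiset.prod_cons, ← hb2, hG']
        congr 1
        rw [C_neg, sub_neg_eq_add]
        exact hf.eq_X_add_C h1
  exact key r F hF hr dvd_rfl

end Pool.Agent.K4H57.EC
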