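import Pool.Agent.K4H57.EC.Split

set_option autoImplicit false

/-!
# The discriminant and the Mahler measure
-/

open NumberField Polynomial Ideal

namespace Pool.Agent.K4H57.EC

/-- the product of the derivatives at the roots -/
lemma prod_deriv_le {g : ℂ[X]} (hg : g.Monic) (hn : g.roots.Nodup) {n : ℕ} (hd : g.natDegree = n + 2) :
    ∏ x ∈ g.roots.toFinset, ‖eval x (derivative g)‖ ≤ 2 ^ ((n + 1) * (n + 2)) * g.mahlerMeasure ^ (2 * (n + 1)) := by
  classical
  have hs := IsAlgClosed.splits g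
  have hcard : Multiset.card g.roots = n + 2 := by rw [← hd]; exact splits_iff_card_roots.1 hs
  have hcardS : g.roots.toFinset.card = n + 2 := by rw [Multiset.toFinset_card_of_nodup hn, hcard]
  have hH : g.mahlerMeasure = ∏ x ∈ g.roots.toFinset, max 1 ‖x‖ := by
    rw [mahlerMeasure_eq_leadingCoeff_mul_prod_roots, hg.leadingCoeff, norm_one, one_mul, Finset.prod_eq_multiset_prod,
      Multiset.toFinset_val, hn.dedup]
  have hH1 : 1 ≤ g.mahlerMeasure := one_le_mahlerMeasure_of_one_le_norm_leadingCoeff (by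
    rw [hg.leadingCoeff, norm_one])
  have key : ∀ x ∈ g.roots.toFinset, ‖eval x (derivative g)‖ ≤ 2 ^ (n + 1) * (max 1 ‖x‖) ^ n * g.mahlerMeasure := by
    intro x hx
    have hxs : x ∈ g.roots := Multiset.mem_toFinset.1 hx
    rw [hs.eval_root_derivative hg hxs]
    have h1 : ‖((g.roots.erase x).map (x - ·)).prod‖ ≤
        ((g.roots.erase x).map fun y => 2 * max 1 ‖x‖ * max 1 ‖y‖).prod := by
      have e : ‖((g.roots.erase x).map (x - ·)).prod‖ = ((g.roots.erase x).map fun y => ‖x - y‖).prod := by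
        have := map_multiset_prod (normHom : ℂ →*₀ ℝ) ((g.roots.erase x).map (x - ·))
        rw [Multiset.map_map] at this
        exact this
      rw [e]
      refine Multiset.prod_map_le_prod_map₀ _ _ (fun y _ => norm_nonneg _) fun y _ => ?_
      have hx1 : 1 ≤ max 1 ‖x‖ := le_max_left _ _
      have hy1 : 1 ≤ max 1 ‖y‖ := le_max_left _ _
      have hx2 : ‖x‖ ≤ max 1 ‖x‖ := le_max_right _ _
      have hy2 : ‖y‖ ≤ max 1 ‖y‖ := le_max_right _ _
      have h0 := norm_sub_le x y
      nlinarith [mul_nonneg (sub_nonneg.2 hx1) (sub_nonneg.2 hy1)]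
    have h2 : ((g.roots.erase x).map fun y => 2 * max 1 ‖x‖ * max 1 ‖y‖).prod =
        2 ^ (n + 1) * (max 1 ‖x‖) ^ (n + 1) * ((g.roots.erase x).map fun y => max 1 ‖y‖).prod := by
      rw [Multiset.prod_map_mul, Multiset.map_const', Multiset.prod_replicate, Multiset.card_erase_of_mem hxs, hcard,
        mul_pow]
      simp
    have h3 : max 1 ‖x‖ * ((g.roots.erase x).map fun y => max 1 ‖y‖).prod = g.mahlerMeasure := by
      rw [mahlerMeasure_eq_leadingCoeff_mul_prod_roots, hg.leadingCoeff, norm_one, one_mul]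
      exact Multiset.prod_map_erase (f := fun y : ℂ => max 1 ‖y‖) hxs
    rw [h2] at h1
    refine h1.trans (le_of_eq ?_)
    rw [← h3]
    ring
  calc ∏ x ∈ g.roots.toFinset, ‖eval x (derivative g)‖
      ≤ ∏ x ∈ g.roots.toFinset, (2 ^ (n + 1) * (max 1 ‖x‖) ^ n * g.mahlerMeasure) :=
        Finset.prod_le_prod (fun x _ => norm_nonneg _) key
    _ = 2 ^ ((n + 1) * (n + 2)) * g.mahlerMeasure ^ (2 * (n + 1)) := by
        rw [Finset.prod_mul_distrib, Finset.prod_mul_distrib, Finset.prod_const, Finset.prod_const, Finset.prod_pow,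
          ← hH, hcardS]
        ring

variable {E : Type} [Field E] [NumberField E]

lemma MM_eq {θ : 𝓞 E} (hθ : Algebra.adjoin ℚ {algebraMap (𝓞 E) E θ} = ⊤)
    (hd : Module.finrank ℚ E = (minpoly ℤ θ).natDegree) :
    ((minpoly ℤ θ).map (Int.castRingHom ℂ)).roots.Nodup ∧
    (MM θ : ℝ) = ∏ x ∈ ((minpoly ℤ θ).map (Int.castRingHom ℂ)).roots.toFinset,
      ‖eval x (derivative ((minpoly ℤ θ).map (Int.castRingHom ℂ)))‖ := by
  classical
  obtain ⟨g, hg⟩ : ∃ g : ℂ[X], g = (minpoly ℤ θ).map (Int.castRingHom ℂ) := ⟨_, rfl⟩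
  have hmon : (minpoly ℤ θ).Monic := minpoly.monic θ.isIntegral
  have hgm : g.Monic := by rw [hg]; exact hmon.map _
  have h1 : minpoly ℚ (algebraMap (𝓞 E) E θ) = (minpoly ℤ θ).map (algebraMap ℤ ℚ) :=
    minpoly.isIntegrallyClosed_eq_field_fractions ℚ E θ.isIntegral
  have hg2 : g = (minpoly ℚ (algebraMap (𝓞 E) E θ)).map (algebraMap ℚ ℂ) := by
    rw [h1, Polynomial.map_map, hg]
    congr 1
  have hsep : g.Separable := by
    rw [hg2]
    exact Polynomial.Separable.map (Algebra.IsSeparable.isSeparable ℚ (algebraMap (𝓞 E) E θ))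
  have hnd : g.roots.Nodup := nodup_roots hsep
  rw [← hg]
  refine ⟨hnd, ?_⟩
  have hcard : g.roots.toFinset.card = Module.finrank ℚ E := by
    rw [Multiset.toFinset_card_of_nodup hnd, splits_iff_card_roots.1 (IsAlgClosed.splits g), hg, hmon.natDegree_map, hd]
  -- the norm
  have h2 : (MM θ : ℝ) = ∏ σ : E →ₐ[ℚ] ℂ, ‖eval (σ (algebraMap (𝓞 E) E θ)) (derivative g)‖ := by
    have h3 : ((Algebra.norm ℤ (aeval θ (derivative (minpoly ℤ θ))) : ℤ) : ℂ) =
        ∏ σ : E →ₐ[ℚ] ℂ, eval (σ (algebraMap (𝓞 E) E θ)) (derivative g) := by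
      have h4 := Algebra.coe_norm_int (aeval θ (derivative (minpoly ℤ θ)))
      have h5 := Algebra.norm_eq_prod_embeddings ℚ ℂ
        (algebraMap (𝓞 E) E (aeval θ (derivative (minpoly ℤ θ))))
      have h6 : ((Algebra.norm ℤ (aeval θ (derivative (minpoly ℤ θ))) : ℤ) : ℂ) =
        algebraMap ℚ ℂ (Algebra.norm ℚ (algebraMap (𝓞 E) E (aeval θ (derivative (minpoly ℤ θ))))) := by
        rw [← h4]
        simp
      rw [h6, h5]
      refine Finset.prod_congr rfl fun σ _ => ?_
      rw [← aeval_algebraMap_apply, hg, derivative_map, eval_map]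
      have h7 : (σ : E →ₐ[ℚ] ℂ) (aeval (algebraMap (𝓞 E) E θ) (derivative (minpoly ℤ θ))) =
        aeval (σ (algebraMap (𝓞 E) E θ)) (derivative (minpoly ℤ θ)) := by
        have := aeval_algHom_apply (σ.restrictScalars ℤ) (algebraMap (𝓞 E) E θ) (derivative (minpoly ℤ θ))
        exact this.symm
      rw [h7, aeval_def]
      congr 1
    have h8 := congrArg (fun z : ℂ => ‖z‖) h3
    simp only [norm_prod] at h8
    rw [← h8, MM, absNorm_span_singleton, Complex.norm_intCast, Nat.cast_natAbs, Int.cast_abs]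
  rw [h2]
  have hinj : Function.Injective fun σ : E →ₐ[ℚ] ℂ => σ (algebraMap (𝓞 E) E θ) := by
    intro σ τ h
    refine AlgHom.ext_of_adjoin_eq_top hθ ?_
    intro x hx
    rw [Set.mem_singleton_iff] at hx
    rw [hx]
    exact h
  have himg : Finset.univ.image (fun σ : E →ₐ[ℚ] ℂ => σ (algebraMap (𝓞 E) E θ)) = g.roots.toFinset := by
    refine Finset.eq_of_subset_of_card_le ?_ ?_
    · intro x hx
      rw [Finset.mem_image] at hx
      obtain ⟨σ, -, rfl⟩ := hx
      rw [Multiset.mem_toFinset, mem_roots hgm.ne_zero, IsRoot.def, hg2, eval_map_algebraMap,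
        aeval_algHom_apply, minpoly.aeval, map_zero]
    · rw [hcard, Finset.card_image_of_injective _ hinj, Finset.card_univ, AlgHom.card]
  rw [← himg, Finset.prod_image (fun σ _ τ _ h => hinj h)]

/-- the discriminant is bounded by the Mahler measure -/
theorem log_MM_le {θ : 𝓞 E} (hθ : Algebra.adjoin ℚ {algebraMap (𝓞 E) E θ} = ⊤)
    (hd : Module.finrank ℚ E = (minpoly ℤ θ).natDegree) {n : ℕ} (hn : (minpoly ℤ θ).natDegree = n + 2) :
    Real.log (MM θ) ≤ (n + 1) * (n + 2) * Real.log 2 +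
      2 * (n + 1) * Real.log (((minpoly ℤ θ).map (Int.castRingHom ℂ)).mahlerMeasure) := by
  obtain ⟨h1, h2⟩ := MM_eq hθ hd
  have hmon : (minpoly ℤ θ).Monic := minpoly.monic θ.isIntegral
  have h3 := prod_deriv_le (hmon.map (Int.castRingHom ℂ)) h1 (by rw [hmon.natDegree_map]; exact hn)
  rw [← h2] at h3
  have h4 : (0 : ℝ) < MM θ := by exact_mod_cast Nat.pos_of_ne_zero MM_ne
  have h5 : 0 < ((minpoly ℤ θ).map (Int.castRingHom ℂ)).mahlerMeasure :=
    mahlerMeasure_pos_of_ne_zero (hmon.map _).ne_zero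
  refine (Real.log_le_log h4 h3).trans (le_of_eq ?_)
  rw [Real.log_mul (by positivity) (by positivity), Real.log_pow, Real.log_pow]
  push_cast
  ring

end Pool.Agent.K4H57.EC
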