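import Pool.Agent.K4H57.EC.Anal
import Pool.Agent.K4H57.EC.Disc
import Pool.Agent.K4H57.CI.LowFin

set_option autoImplicit false

/-!
# Irreducible factors that split modulo all small primes
-/

open Polynomial Filter

namespace Pool.Agent.K4H57.EC

open Pool.Agent.K4H57.CI (disc3 SplitsMod Splits3 cubic_split disc_bound3 coeff3)

/-- Mahler measure of an integral polynomial -/
noncomputable def mh (f : ℤ[X]) : ℝ := (f.map (Int.castRingHom ℂ)).mahlerMeasure

lemma mh_one {f : ℤ[X]} (hf : f.Monic) : 1 ≤ mh f :=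
  one_le_mahlerMeasure_of_one_le_norm_leadingCoeff (by rw [(hf.map _).leadingCoeff, norm_one])

lemma mh_coeff {f : ℤ[X]} (hf : f.Monic) (n : ℕ) : |((f.coeff n : ℤ) : ℝ)| ≤ f.natDegree.choose n * mh f := by
  have h := norm_coeff_le_choose_mul_mahlerMeasure n (f.map (Int.castRingHom ℂ))
  rw [coeff_map, hf.natDegree_map, eq_intCast, Complex.norm_intCast] at h
  exact h

lemma mh_dvd {f g : ℤ[X]} (hg : g.Monic) (hf : f.Monic) (h : f ∣ g) : mh f ≤ mh g := by
  obtain ⟨q, hq⟩ := h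
  have hqm : q.Monic := Monic.of_mul_monic_left hf (by rw [← hq]; exact hg)
  unfold mh
  rw [hq, Polynomial.map_mul, mahlerMeasure_mul]
  have h1 := mh_one hqm
  have h2 := mahlerMeasure_nonneg (f.map (Int.castRingHom ℂ))
  exact le_mul_of_one_le_right h2 h1

/-- An irreducible monic polynomial with an integral root has degree one. -/
lemma deg_one_of_root {f : ℤ[X]} (hf : f.Monic) (hi : Irreducible f) {x : ℤ} (hx : f.eval x = 0) :
    f.natDegree = 1 := by
  obtain ⟨q, hq⟩ := dvd_iff_isRoot.2 (show f.IsRoot x from hx)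
  have hqm : q.Monic := Monic.of_mul_monic_left (monic_X_sub_C x) (by rw [← hq]; exact hf)
  rcases hi.isUnit_or_isUnit hq with h | h
  · exact absurd h (not_isUnit_X_sub_C x)
  · have : q = 1 := hqm.eq_one_of_isUnit h
    rw [hq, this, mul_one, natDegree_X_sub_C]

/-- the roots modulo a prime -/
lemma roots_mod {f : ℤ[X]} (hf : f.Monic) {p : ℕ} [Fact p.Prime]
    (hs : (f.map (Int.castRingHom (ZMod p))).Splits) : ∃ s : Multiset (ZMod p), Multiset.card s = f.natDegree ∧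
      f.map (Int.castRingHom (ZMod p)) = (s.map fun x => X - C x).prod := by
  refine ⟨(f.map (Int.castRingHom (ZMod p))).roots, ?_, ?_⟩
  · rw [splits_iff_card_roots.1 hs, hf.natDegree_map]
  · exact hs.eq_prod_roots_of_monic (hf.map _)

lemma quad_eq {f : ℤ[X]} (hf : f.Monic) (h2 : f.natDegree = 2) :
    f = X ^ 2 + C (f.coeff 1) * X + C (f.coeff 0) := by
  have h := f.as_sum_range_C_mul_X_pow
  rw [h2] at h
  simp only [Finset.sum_range_succ, Finset.sum_range_zero] at h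
  have h3 : f.coeff 2 = 1 := by rw [← h2]; exact hf.coeff_natDegree
  rw [h3] at h
  nth_rewrite 1 [h]
  simp
  ring

lemma cub_eq {f : ℤ[X]} (hf : f.Monic) (h3 : f.natDegree = 3) :
    f = X ^ 3 - C (-f.coeff 2) * X ^ 2 + C (f.coeff 1) * X - C (-f.coeff 0) := by
  have h := f.as_sum_range_C_mul_X_pow
  rw [h3] at h
  simp only [Finset.sum_range_succ, Finset.sum_range_zero] at h
  have h4 : f.coeff 3 = 1 := by rw [← h3]; exact hf.coeff_natDegree
  rw [h4] at h
  nth_rewrite 1 [h]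
  simp
  ring

lemma coeff2 {R : Type*} [CommRing R] (a b a' b' : R)
    (h : (X ^ 2 + C a * X + C b : R[X]) = X ^ 2 - C a' * X + C b') : a = -a' ∧ b = b' := by
  have k1 := congrArg (fun P : R[X] => P.coeff 1) h
  have k0 := congrArg (fun P : R[X] => P.coeff 0) h
  simp [coeff_X, coeff_C, coeff_X_pow] at k1 k0
  exact ⟨k1, k0⟩

/-- degree two -/
lemma quad_case (r : ℕ) : ∀ᶠ y : ℕ in atTop, ∀ f : ℤ[X], f.Monic → Irreducible f → f.natDegree = 2 →
    ∀ D : ℤ, D ≠ 0 → |(D : ℝ)| ≤ (y : ℝ) ^ (7 : ℝ) → mh f ≤ (y : ℝ) ^ (1.311 : ℝ) →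
    (∀ p : ℕ, p.Prime → r < p → p ≤ y → ¬ (p : ℤ) ∣ D → (f.map (Int.castRingHom (ZMod p))).Splits) → False := by
  obtain ⟨he1, he2⟩ := Pool.Agent.R852.BC.exp_half_bounds
  have hm2 := Pool.Agent.R852.BC.main2 r 7 1 one_pos
  have tc : Tendsto (fun q : ℕ => (q : ℝ)) atTop atTop := tendsto_natCast_atTop_atTop
  have f1 : ∀ᶠ x : ℝ in atTop, 8 ≤ x ^ (1 : ℝ) := (tendsto_rpow_atTop one_pos).eventually_ge_atTop _
  filter_upwards [hm2, tc.eventually f1, eventually_ge_atTop 1] with y hy f1 hy1 f hf hi h2 D hD hDy hM hs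
  have hyr : (1 : ℝ) ≤ y := by exact_mod_cast hy1
  have hy0 : (0 : ℝ) < y := lt_of_lt_of_le one_pos hyr
  have hM1 := mh_one hf
  obtain ⟨a, ha⟩ : ∃ a, a = f.coeff 1 := ⟨_, rfl⟩
  obtain ⟨b, hb⟩ : ∃ b, b = f.coeff 0 := ⟨_, rfl⟩
  have hfe : f = X ^ 2 + C a * X + C b := by rw [ha, hb]; exact quad_eq hf h2
  have ha2 : |(a : ℝ)| ≤ 2 * mh f := by
    have := mh_coeff hf 1
    rw [h2, ← ha] at this
    simpa using this
  have hb2 : |(b : ℝ)| ≤ mh f := by
    have := mh_coeff hf 0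
    rw [h2, ← hb] at this
    simpa using this
  have hsq : IsSquare (a ^ 2 - 4 * b) := by
    refine hy (a ^ 2 - 4 * b) D hD hDy ?_ ?_
    · have h3 : |((a ^ 2 - 4 * b : ℤ) : ℝ)| ≤ 8 * mh f ^ 2 := by
        push_cast
        have h4 : (a : ℝ) ^ 2 ≤ (2 * mh f) ^ 2 := by
          rw [← sq_abs]
          exact pow_le_pow_left₀ (abs_nonneg _) ha2 2
        have h5 := abs_le.1 hb2
        rw [abs_le]
        constructor <;> nlinarith [sq_nonneg (a : ℝ)]
      have h4 : mh f ^ 2 ≤ (y : ℝ) ^ (2.622 : ℝ) := by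
        calc mh f ^ 2 ≤ ((y : ℝ) ^ (1.311 : ℝ)) ^ 2 := pow_le_pow_left₀ (by linarith) hM 2
          _ = (y : ℝ) ^ (2.622 : ℝ) := by
              rw [← Real.rpow_natCast, ← Real.rpow_mul hy0.le]
              norm_num
      have h5 : (8 : ℝ) * mh f ^ 2 ≤ (y : ℝ) ^ (1 : ℝ) * (y : ℝ) ^ (2.622 : ℝ) :=
        mul_le_mul f1 h4 (by positivity) (by positivity)
      rw [← Real.rpow_add hy0] at h5
      refine h3.trans (h5.trans (Real.rpow_le_rpow_of_exponent_le hyr ?_))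
      linarith
    · intro p hp hrp hpy hpD
      haveI : Fact p.Prime := ⟨hp⟩
      obtain ⟨s, hs1, hs2⟩ := roots_mod hf (hs p hp hrp hpy hpD)
      rw [h2, Multiset.card_eq_two] at hs1
      obtain ⟨u, v, rfl⟩ := hs1
      obtain ⟨u', hu⟩ := ZMod.intCast_surjective u
      obtain ⟨v', hv⟩ := ZMod.intCast_surjective v
      rw [hfe] at hs2
      have e1 : ((X ^ 2 + C a * X + C b : ℤ[X]).map (Int.castRingHom (ZMod p))) =
        X ^ 2 + C (a : ZMod p) * X + C (b : ZMod p) := by simp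
      have e2 : (Multiset.map (fun x => X - C x) {u, v}).prod = (X ^ 2 - C (u + v) * X + C (u * v) : (ZMod p)[X]) := by
        simp only [Multiset.insert_eq_cons, Multiset.map_cons, Multiset.map_singleton, Multiset.prod_cons,
          Multiset.prod_singleton, C_add, C_mul]
        ring
      rw [e1, e2] at hs2
      obtain ⟨k1, k0⟩ := coeff2 _ _ _ _ hs2
      refine ⟨u' - v', ?_⟩
      rw [← ZMod.intCast_zmod_eq_zero_iff_dvd]
      push_cast
      rw [hu, hv, k1, k0]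
      ring
  obtain ⟨s, hs'⟩ := hsq
  -- an integral root
  have hpar : (2 : ℤ) ∣ s - a := by
    have h3 : (2 : ℤ) ∣ (s - a) * (s + a) := by
      refine ⟨-2 * b, ?_⟩
      linear_combination -hs'
    rcases Int.prime_two.dvd_or_dvd h3 with h | h
    · exact h
    · have : s - a = s + a - 2 * a := by ring
      rw [this]
      exact dvd_sub h (dvd_mul_right _ _)
  obtain ⟨w, hw⟩ := hpar
  have hroot : f.eval w = 0 := by
    rw [hfe]
    simp only [eval_add, eval_pow, eval_X, eval_mul, eval_C]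
    have h3 : s = 2 * w + a := by linarith
    rw [h3] at hs'
    linarith
  have := deg_one_of_root hf hi hroot
  omega

/-- degree three -/
lemma cub_case (r : ℕ) : ∀ᶠ y : ℕ in atTop, ∀ f : ℤ[X], f.Monic → Irreducible f → f.natDegree = 3 →
    ∀ D : ℤ, D ≠ 0 → |(D : ℝ)| ≤ (y : ℝ) ^ (7 : ℝ) → mh f ≤ (y : ℝ) ^ (1.311 : ℝ) →
    (∀ p : ℕ, p.Prime → r < p → p ≤ y → ¬ (p : ℤ) ∣ D → (f.map (Int.castRingHom (ZMod p))).Splits) → False := by
  obtain ⟨he1, he2⟩ := Pool.Agent.R852.BC.exp_half_bounds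
  have hcs := cubic_split r 7 (1 / 4) (by norm_num)
  have tc : Tendsto (fun q : ℕ => (q : ℝ)) atTop atTop := tendsto_natCast_atTop_atTop
  have f1 : ∀ᶠ x : ℝ in atTop, 4374 ≤ x ^ (1 : ℝ) := (tendsto_rpow_atTop one_pos).eventually_ge_atTop _
  filter_upwards [hcs, tc.eventually f1, eventually_ge_atTop 1] with y hy f1 hy1 f hf hi h3 D hD hDy hM hs
  have hyr : (1 : ℝ) ≤ y := by exact_mod_cast hy1
  have hy0 : (0 : ℝ) < y := lt_of_lt_of_le one_pos hyr
  have hM1 := mh_one hf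
  obtain ⟨b, hb⟩ : ∃ b, b = -f.coeff 2 := ⟨_, rfl⟩
  obtain ⟨c, hc⟩ : ∃ c, c = f.coeff 1 := ⟨_, rfl⟩
  obtain ⟨d, hd⟩ : ∃ d, d = -f.coeff 0 := ⟨_, rfl⟩
  have hfe : f = X ^ 3 - C b * X ^ 2 + C c * X - C d := by rw [hb, hc, hd]; exact cub_eq hf h3
  obtain ⟨δ, hδ⟩ : ∃ δ : ℤ, δ = ⌊3 * mh f⌋ := ⟨_, rfl⟩
  have hδM : (δ : ℝ) ≤ 3 * mh f := by rw [hδ]; exact Int.floor_le _
  have hb2 : |b| ≤ δ := by
    rw [hδ, Int.le_floor]
    have := mh_coeff hf 2
    rw [h3] at this
    rw [hb, abs_neg]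
    push_cast
    simpa [Nat.choose] using this
  have hc2 : |c| ≤ δ := by
    rw [hδ, Int.le_floor]
    have := mh_coeff hf 1
    rw [h3] at this
    rw [hc]
    push_cast
    simpa [Nat.choose] using this
  have hd2 : |d| ≤ δ := by
    rw [hδ, Int.le_floor]
    have := mh_coeff hf 0
    rw [h3] at this
    rw [hd, abs_neg]
    push_cast
    simp [Nat.choose] at this
    linarith
  have hδ1 : 1 ≤ δ := by
    rw [hδ, Int.le_floor]
    push_cast
    linarith
  have hδ0 : (1 : ℝ) ≤ δ := by exact_mod_cast hδ1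
  have hM4 : mh f ^ 4 ≤ (y : ℝ) ^ (5.244 : ℝ) := by
    calc mh f ^ 4 ≤ ((y : ℝ) ^ (1.311 : ℝ)) ^ 4 := pow_le_pow_left₀ (by linarith) hM 4
      _ = (y : ℝ) ^ (5.244 : ℝ) := by
          rw [← Real.rpow_natCast, ← Real.rpow_mul hy0.le]
          norm_num
  have hδ4 : (54 : ℝ) * δ ^ 4 ≤ (y : ℝ) ^ (6.244 : ℝ) := by
    have h4 : (δ : ℝ) ^ 4 ≤ (3 * mh f) ^ 4 := pow_le_pow_left₀ (by linarith) hδM 4
    have h5 : (4374 : ℝ) * mh f ^ 4 ≤ (y : ℝ) ^ (1 : ℝ) * (y : ℝ) ^ (5.244 : ℝ) :=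
      mul_le_mul f1 hM4 (by positivity) (by positivity)
    rw [← Real.rpow_add hy0] at h5
    norm_num at h5
    have h6 : (6.244 : ℝ) = 1561 / 250 := by norm_num
    rw [h6]
    nlinarith
  have hsp : Splits3 b c d := by
    refine hy b c d D hD hDy ?_ ?_ ?_
    · have h4 : |((b ^ 2 - 3 * c : ℤ) : ℝ)| ≤ 54 * δ ^ 4 := by
        have h5 : |b ^ 2 - 3 * c| ≤ 54 * δ ^ 4 := by
          have h6 : b ^ 2 ≤ δ ^ 2 := by
            rw [← sq_abs]
            exact pow_le_pow_left₀ (abs_nonneg _) hb2 2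
          have h7 := abs_le.1 hc2
          have h8 : δ ^ 2 ≤ δ ^ 4 := pow_le_pow_right₀ hδ1 (by norm_num)
          have h9 : δ ≤ δ ^ 4 := by
            calc δ = δ ^ 1 := (pow_one _).symm
              _ ≤ δ ^ 4 := pow_le_pow_right₀ hδ1 (by norm_num)
          rw [abs_le]
          constructor <;> nlinarith [sq_nonneg b]
        exact_mod_cast h5
      exact h4.trans (hδ4.trans (Real.rpow_le_rpow_of_exponent_le hyr (by norm_num)))
    · have h4 := disc_bound3 hδ1 hb2 hc2 hd2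
      have h5 : |((disc3 b c d : ℤ) : ℝ)| ≤ 54 * (δ : ℝ) ^ 4 := by exact_mod_cast h4
      refine h5.trans (hδ4.trans (Real.rpow_le_rpow_of_exponent_le hyr ?_))
      linarith
    · intro p hp hrp hpy hpD
      haveI : Fact p.Prime := ⟨hp⟩
      obtain ⟨s, hs1, hs2⟩ := roots_mod hf (hs p hp hrp hpy hpD)
      rw [h3, Multiset.card_eq_three] at hs1
      obtain ⟨u', v', w', rfl⟩ := hs1
      obtain ⟨u, hu⟩ := ZMod.intCast_surjective u'
      obtain ⟨v, hv⟩ := ZMod.intCast_surjective v'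
      obtain ⟨w, hw⟩ := ZMod.intCast_surjective w'
      rw [hfe] at hs2
      have e1 : ((X ^ 3 - C b * X ^ 2 + C c * X - C d : ℤ[X]).map (Int.castRingHom (ZMod p))) =
        X ^ 3 - C (b : ZMod p) * X ^ 2 + C (c : ZMod p) * X - C (d : ZMod p) := by simp
      have e2 : (Multiset.map (fun x => X - C x) {u', v', w'}).prod =
        (X ^ 3 - C ((u' + v' + w' : ZMod p)) * X ^ 2 + C ((u' * v' + u' * w' + v' * w' : ZMod p)) * X -
        C ((u' * v' * w' : ZMod p)) : (ZMod p)[X]) := by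
        simp only [Multiset.insert_eq_cons, Multiset.map_cons, Multiset.map_singleton, Multiset.prod_cons,
          Multiset.prod_singleton, C_add, C_mul]
        ring
      rw [e1, e2] at hs2
      obtain ⟨k2, k1, k0⟩ := coeff3 _ _ _ _ _ _ hs2
      refine ⟨u, v, w, ?_, ?_, ?_⟩
      · rw [← ZMod.intCast_zmod_eq_zero_iff_dvd]
        push_cast
        rw [hu, hv, hw, k2, sub_self]
      · rw [← ZMod.intCast_zmod_eq_zero_iff_dvd]
        push_cast
        rw [hu, hv, hw, k1, sub_self]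
      · rw [← ZMod.intCast_zmod_eq_zero_iff_dvd]
        push_cast
        rw [hu, hv, hw, k0, sub_self]
  obtain ⟨u, v, w, h4, h5, h6⟩ := hsp
  have hroot : f.eval u = 0 := by
    rw [hfe]
    simp only [eval_add, eval_sub, eval_pow, eval_X, eval_mul, eval_C]
    rw [h4, h5, h6]
    ring
  have := deg_one_of_root hf hi hroot
  omega

end Pool.Agent.K4H57.EC
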