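import Pool.Agent.K4H57.EC.Big

set_option autoImplicit false

/-!
# Subvarieties of small degree in all codimensions
-/

open Polynomial Filter

namespace Pool.Agent.K4H57.EC

open Pool.Agent.K4H57.CI
open Pool.Agent.R920.CH

/-- the Mahler measure of the shifted Chern polynomial -/
lemma mh_chern {r : ℕ} {c : ℕ → ℤ} (hpos : ∀ i ≤ r, 0 ≤ c i) (hd : ((chernPoly r c).comp (X + 1)).natDegree = r) :
    mh ((chernPoly r c).comp (X + 1)) ≤ ((∑ i ∈ Finset.range (r + 1), c i : ℤ) : ℝ) := by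
  unfold mh
  refine (mahlerMeasure_le_sum_norm_coeff _).trans ?_
  rw [sum_over_range _ (fun n => norm_zero)]
  have h1 : (((chernPoly r c).comp (X + 1)).map (Int.castRingHom ℂ)).natDegree ≤ r :=
    (natDegree_map_le).trans hd.le
  have h2 : ∀ n ≤ r, ((chernPoly r c).comp (X + 1)).coeff n = (-1) ^ (r - n) * c (r - n) := by
    intro n hn
    rw [comp_chern, finsetSum_coeff, Finset.sum_eq_single (r - n)]
    · rw [coeff_C_mul, coeff_X_pow, if_pos (by omega), mul_one]
    · intro i hi hin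
      rw [Finset.mem_range] at hi
      rw [coeff_C_mul, coeff_X_pow, if_neg (by omega), mul_zero]
    · intro h
      exact absurd (Finset.mem_range.2 (by omega)) h
  calc ∑ n ∈ Finset.range ((((chernPoly r c).comp (X + 1)).map (Int.castRingHom ℂ)).natDegree + 1),
        ‖(((chernPoly r c).comp (X + 1)).map (Int.castRingHom ℂ)).coeff n‖
      ≤ ∑ n ∈ Finset.range (r + 1), ‖(((chernPoly r c).comp (X + 1)).map (Int.castRingHom ℂ)).coeff n‖ :=
        Finset.sum_le_sum_of_subset_of_nonneg (Finset.range_mono (by omega)) (fun _ _ _ => norm_nonneg _)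
    _ = ∑ n ∈ Finset.range (r + 1), (c (r - n) : ℝ) := by
        refine Finset.sum_congr rfl fun n hn => ?_
        rw [Finset.mem_range] at hn
        have h3 : (0 : ℤ) ≤ c (r - n) := hpos _ (by omega)
        rw [coeff_map, h2 n (by omega), eq_intCast, Complex.norm_intCast]
        push_cast
        rw [abs_mul, abs_pow, abs_neg, abs_one, one_pow, one_mul, abs_of_nonneg (by exact_mod_cast h3)]
    _ = ((∑ i ∈ Finset.range (r + 1), c i : ℤ) : ℝ) := by
        push_cast
        rw [← Finset.sum_range_reflect]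
        refine Finset.sum_congr rfl fun n hn => ?_
        rw [Finset.mem_range] at hn
        congr 2
        omega

/-- **Small degree in every codimension.** -/
theorem every (r : ℕ) : ∃ N₀ : ℕ, ∀ N ≥ N₀, ∀ c : ℕ → ℤ, c 0 = 1 → (∀ i ≤ r, 0 ≤ c i) →
    RiemannRochSub N (chernPoly r c) →
    ((∑ i ∈ Finset.range (r + 1), c i : ℤ) : ℝ) ≤ (N : ℝ) ^ (1.31 : ℝ) →
    ∃ a : Multiset ℤ, (∀ x ∈ a, 1 ≤ x) ∧ Multiset.card a = r ∧
      chernPoly r c = (a.map fun x => X - C x).prod := by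
  rcases Nat.eq_zero_or_pos r with rfl | hr
  · refine ⟨0, fun N _ c h0 _ _ _ => ⟨0, by simp, rfl, ?_⟩⟩
    simp [chernPoly, h0]
  have tc : Tendsto (fun q : ℕ => (q : ℝ)) atTop atTop := tendsto_natCast_atTop_atTop
  have f1 : ∀ᶠ x : ℝ in atTop, (2 * r : ℝ) ^ (1.31 : ℝ) ≤ x ^ (0.001 : ℝ) :=
    (tendsto_rpow_atTop (by norm_num)).eventually_ge_atTop _
  obtain ⟨y₀, hy₀⟩ := eventually_atTop.1 ((all_split r).and (tc.eventually f1))
  refine ⟨r * (y₀ + 1), fun N hN c h0 hpos hRR hδ => ?_⟩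
  obtain ⟨y, hy⟩ : ∃ y : ℕ, y = N / r := ⟨_, rfl⟩
  have hyy : y₀ + 1 ≤ y := by
    rw [hy, Nat.le_div_iff_mul_le hr]
    linarith [mul_comm r (y₀ + 1)]
  obtain ⟨hall, f1⟩ := hy₀ y (by omega)
  obtain ⟨hM, hD⟩ := chernPoly_monic r c h0
  obtain ⟨δ, hδd⟩ : ∃ δ : ℤ, δ = ∑ i ∈ Finset.range (r + 1), c i := ⟨_, rfl⟩
  have hδ1 : 1 ≤ δ := by
    have := Finset.single_le_sum (f := c) (s := Finset.range (r + 1)) (fun j hj => hpos j (by
      rw [Finset.mem_range] at hj
      omega)) (Finset.mem_range.2 (Nat.succ_pos r))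
    rw [hδd]
    rwa [h0] at this
  rw [← hδd] at hδ
  have hyr : (1 : ℝ) ≤ y := by exact_mod_cast (by omega : 1 ≤ y)
  have hy0 : (0 : ℝ) < y := lt_of_lt_of_le one_pos hyr
  have hN2 : (N : ℝ) ≤ (2 * r : ℝ) * y := by
    have h1 : N < r * (y + 1) := by
      rw [hy]
      exact Nat.lt_mul_div_succ N hr
    have h2 : N ≤ 2 * r * y := by nlinarith
    exact_mod_cast h2
  have hδy : (δ : ℝ) ≤ (y : ℝ) ^ (1.311 : ℝ) := by
    calc (δ : ℝ) ≤ (N : ℝ) ^ (1.31 : ℝ) := hδ
      _ ≤ ((2 * r : ℝ) * y) ^ (1.31 : ℝ) := Real.rpow_le_rpow (Nat.cast_nonneg _) hN2 (by norm_num)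
      _ = (2 * r : ℝ) ^ (1.31 : ℝ) * (y : ℝ) ^ (1.31 : ℝ) := Real.mul_rpow (by positivity) hy0.le
      _ ≤ (y : ℝ) ^ (0.001 : ℝ) * (y : ℝ) ^ (1.31 : ℝ) := mul_le_mul_of_nonneg_right f1 (by positivity)
      _ = (y : ℝ) ^ (1.311 : ℝ) := by
          rw [← Real.rpow_add hy0]
          norm_num
  have hcomp : (X + 1 : ℤ[X]) = X + C 1 := by rw [C_1]
  have hFm : ((chernPoly r c).comp (X + 1)).Monic := by
    rw [hcomp]
    exact hM.comp_X_add_C 1
  have hFd : ((chernPoly r c).comp (X + 1)).natDegree = r := by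
    rw [hcomp, natDegree_comp, natDegree_X_add_C, mul_one, hD]
  obtain ⟨b, hb1, hb2⟩ := hall ((chernPoly r c).comp (X + 1)) hFm hFd δ (by omega) (by
      rw [abs_of_nonneg (by exact_mod_cast (by omega : (0 : ℤ) ≤ δ))]
      exact hδy.trans (Real.rpow_le_rpow_of_exponent_le hyr (by norm_num)))
    (by
      refine (mh_chern hpos hFd).trans ?_
      rw [← hδd]
      exact hδy)
    (by
      intro p hp hrp hpy hpδ
      have hF : Fact p.Prime := ⟨hp⟩
      obtain ⟨x, hx⟩ := splits_mod_sub (chernPoly r c) hM hD hRR p hrp (by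
        rw [hy] at hpy
        calc r * p ≤ r * (N / r) := Nat.mul_le_mul_left _ hpy
          _ ≤ N := Nat.mul_div_le N r) (by
        rw [coeff_zero_chern, ← hδd]
        intro h
        apply hpδ
        have h1 : (p : ℤ) ∣ (-1) ^ r * ((-1) ^ r * δ) := Dvd.dvd.mul_left h _
        have h2 : ((-1 : ℤ)) ^ r * ((-1) ^ r * δ) = δ := by
          rw [← mul_assoc, ← mul_pow]
          simp
        rwa [h2] at h1)
      have h3 : ((chernPoly r c).comp (X + 1)).map (Int.castRingHom (ZMod p)) = ∏ i, (X - C (x i - 1)) := by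
        rw [Polynomial.map_comp, Polynomial.map_add, map_X, Polynomial.map_one, hx, comp_prod]
      rw [h3]
      exact Splits.prod fun i _ => Splits.X_sub_C _)
  have hP : chernPoly r c = ((b.map fun x => x + 1).map fun x => X - C x).prod := by
    have h1 := congrArg (fun Q : ℤ[X] => Q.comp (X - 1)) hb2
    simp only [comp_assoc] at h1
    have h2 : (X + 1 : ℤ[X]).comp (X - 1) = X := by
      rw [add_comp, X_comp, one_comp]
      ring
    rw [h2, comp_X, multiset_prod_comp, Multiset.map_map] at h1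
    rw [h1, Multiset.map_map]
    congr 1
    refine Multiset.map_congr rfl fun x _ => ?_
    simp only [Function.comp, sub_comp, X_comp, C_comp, C_add, C_1]
    ring
  refine ⟨b.map fun x => x + 1, fun x hx => ?_, by rw [Multiset.card_map, hb1], hP⟩
  apply root_pos r c h0 hpos
  rw [hP, eval_multiset_prod, Multiset.prod_eq_zero_iff, Multiset.map_map, Multiset.mem_map]
  exact ⟨x, hx, by simp⟩

end Pool.Agent.K4H57.EC
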