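import Pool.Agent.K4H57.EC.Dser
import Pool.Agent.R362.HkCls

set_option autoImplicit false

/-!
# Primes that split completely
-/

open NumberField Polynomial Ideal
open UniqueFactorizationMonoid

namespace Pool.Agent.K4H57.EC

open Pool.Agent.Y773 Pool.Agent.R362.Near Pool.Agent.R362.HL
open Pool.Agent.Y772.DK (norm_over cc_prime NN_finite)

variable {E : Type} [Field E] [NumberField E]

/-- the norm of the derivative of the minimal polynomial -/
noncomputable def MM (θ : 𝓞 E) : ℕ := absNorm (span {aeval θ (derivative (minpoly ℤ θ))})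

lemma MM_ne {θ : 𝓞 E} : MM θ ≠ 0 := by
  unfold MM
  rw [Ne, absNorm_eq_zero_iff, span_singleton_eq_bot]
  intro h
  have h1 : minpoly ℚ (algebraMap (𝓞 E) E θ) = (minpoly ℤ θ).map (algebraMap ℤ ℚ) :=
    minpoly.isIntegrallyClosed_eq_field_fractions ℚ E θ.isIntegral
  have h2 : aeval (algebraMap (𝓞 E) E θ) (derivative (minpoly ℚ (algebraMap (𝓞 E) E θ))) ≠ 0 :=
    (Algebra.IsSeparable.isSeparable ℚ _).aeval_derivative_ne_zero (minpoly.aeval _ _)
  apply h2
  rw [h1, derivative_map, aeval_map_algebraMap, aeval_algebraMap_apply, h, map_zero]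

lemma MM_mem {θ : 𝓞 E} (hθ : Algebra.adjoin ℚ {algebraMap (𝓞 E) E θ} = ⊤) :
    ((MM θ : ℕ) : 𝓞 E) ∈ conductor ℤ θ := by
  have h2 : ((MM θ : ℕ) : 𝓞 E) ∈ conductor ℤ θ * differentIdeal ℤ (𝓞 E) := by
    rw [conductor_mul_differentIdeal ℤ ℚ E θ hθ]
    exact absNorm_mem (span {aeval θ (derivative (minpoly ℤ θ))})
  have h3 : conductor ℤ θ * differentIdeal ℤ (𝓞 E) ≤ conductor ℤ θ := Ideal.mul_le_left
  exact h3 h2

lemma not_dvd_exponent {θ : 𝓞 E} (hθ : Algebra.adjoin ℚ {algebraMap (𝓞 E) E θ} = ⊤) {p : ℕ} [hp : Fact p.Prime]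
    (hpM : ¬ p ∣ MM θ) : ¬ p ∣ RingOfIntegers.exponent θ := by
  rw [RingOfIntegers.not_dvd_exponent_iff, codisjoint_iff]
  rw [Ideal.eq_top_iff_one]
  have hc : IsCoprime ((MM θ : ℕ) : ℤ) (p : ℤ) := by
    rw [Nat.isCoprime_iff_coprime]
    exact (Nat.Coprime.symm ((Nat.Prime.coprime_iff_not_dvd hp.out).2 hpM))
  obtain ⟨a, b, hab⟩ := hc
  rw [← hab]
  refine Ideal.add_mem _ (Ideal.mem_sup_left ?_) (Ideal.mem_sup_right ?_)
  · refine Ideal.mul_mem_left _ _ ?_
    rw [Ideal.mem_comap]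
    have : algebraMap ℤ (𝓞 E) ((MM θ : ℕ) : ℤ) = ((MM θ : ℕ) : 𝓞 E) := by simp
    rw [this]
    exact MM_mem hθ
  · exact Ideal.mul_mem_left _ _ (Ideal.mem_span_singleton_self _)

lemma lgd_le {θ : 𝓞 E} (hθ : Algebra.adjoin ℚ {algebraMap (𝓞 E) E θ} = ⊤) : lgd E ≤ Real.log (MM θ) := by
  unfold lgd
  have h1 := conductor_mul_differentIdeal ℤ ℚ E θ hθ
  have h2 : absNorm (differentIdeal ℤ (𝓞 E)) ∣ MM θ := by
    unfold MM
    rw [← h1, map_mul]
    exact Dvd.intro_left _ rfl
  rw [absNorm_diff] at h2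
  have h3 : 0 < (discr E).natAbs := Int.natAbs_pos.2 (discr_ne_zero E)
  exact Real.log_le_log (by exact_mod_cast h3) (by exact_mod_cast Nat.le_of_dvd (Nat.pos_of_ne_zero MM_ne) h2)

/-- the prime ideals over a prime number modulo which the polynomial splits -/
theorem bb_split {θ : 𝓞 E} (hθ : Algebra.adjoin ℚ {algebraMap (𝓞 E) E θ} = ⊤) {p : ℕ} (hp : p.Prime)
    (hpM : ¬ p ∣ MM θ) (hs : ((minpoly ℤ θ).map (Int.castRingHom (ZMod p))).Splits) :
    ((minpoly ℤ θ).natDegree : ℝ) * Real.log p ≤ bb E p := by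
  classical
  have hF : Fact p.Prime := ⟨hp⟩
  have hexp := not_dvd_exponent hθ hpM
  have hmon : (minpoly ℤ θ).Monic := minpoly.monic θ.isIntegral
  obtain ⟨g, hg⟩ : ∃ g : (ZMod p)[X], g = (minpoly ℤ θ).map (Int.castRingHom (ZMod p)) := ⟨_, rfl⟩
  have hgm : g.Monic := by rw [hg]; exact hmon.map _
  have hg0 : g ≠ 0 := hgm.ne_zero
  have hdeg : g.natDegree = (minpoly ℤ θ).natDegree := by rw [hg]; exact hmon.natDegree_map _
  rw [← hg] at hs
  have hcard : Multiset.card g.roots = (minpoly ℤ θ).natDegree := by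
    rw [← hdeg]
    exact splits_iff_card_roots.1 hs
  have hmem : ∀ c ∈ g.roots, X - C c ∈ RingOfIntegers.monicFactorsMod θ p := by
    intro c hc
    rw [Multiset.mem_toFinset, ← hg, Polynomial.mem_normalizedFactors_iff hg0]
    exact ⟨irreducible_X_sub_C c, monic_X_sub_C c, dvd_iff_isRoot.2 (isRoot_of_mem_roots hc)⟩
  -- the prime ideals
  obtain ⟨e, he⟩ : ∃ e, e = NumberField.Ideal.primesOverSpanEquivMonicFactorsMod (K := E) (θ := θ) (p := p) hexp :=
    ⟨_, rfl⟩
  have hnorm : ∀ (Q : (ZMod p)[X]) (hQ : Q ∈ RingOfIntegers.monicFactorsMod θ p), Q.natDegree = 1 →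
      absNorm ((e.symm ⟨Q, hQ⟩ : (span {(p : ℤ)}).primesOver (𝓞 E)) : Ideal (𝓞 E)) = p := by
    intro Q hQ h1
    rw [norm_over hp (e.symm ⟨Q, hQ⟩).2]
    have h2 := NumberField.Ideal.inertiaDeg_primesOverSpanEquivMonicFactorsMod_symm_apply' hexp hQ
    rw [← he, h1] at h2
    rw [h2, pow_one]
  -- the roots are different
  have hnd : g.roots.Nodup := by
    rw [Multiset.nodup_iff_count_le_one]
    intro c
    by_contra hcon
    push Not at hcon
    rw [count_roots, one_lt_rootMultiplicity_iff_isRoot hg0] at hcon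
    obtain ⟨h1, h2⟩ := hcon
    have hc : c ∈ g.roots := (mem_roots hg0).2 h1
    obtain ⟨z, hz⟩ := ZMod.intCast_surjective c
    have hQ : (X - C z : ℤ[X]).map (Int.castRingHom (ZMod p)) ∈ RingOfIntegers.monicFactorsMod θ p := by
      have : (X - C z : ℤ[X]).map (Int.castRingHom (ZMod p)) = X - C c := by
        rw [Polynomial.map_sub, map_X, map_C, eq_intCast, hz]
      rw [this]
      exact hmem c hc
    have h3 := NumberField.Ideal.primesOverSpanEquivMonicFactorsMod_symm_apply_eq_span hexp hQ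
    have h4 := hnorm _ hQ (by
      rw [Polynomial.map_sub, map_X, map_C, natDegree_X_sub_C])
    rw [he, h3] at h4
    -- the derivative is in the prime ideal
    have h5 : aeval θ (derivative (minpoly ℤ θ)) ∈ span {(p : 𝓞 E), aeval θ (X - C z : ℤ[X])} := by
      have h6 : (X - C z) ∣ derivative (minpoly ℤ θ) - C ((derivative (minpoly ℤ θ)).eval z) := by
        rw [dvd_iff_isRoot, IsRoot.def, eval_sub, eval_C, sub_self]
      obtain ⟨q, hq⟩ := h6
      have h7 : (p : ℤ) ∣ (derivative (minpoly ℤ θ)).eval z := by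
        rw [← ZMod.intCast_zmod_eq_zero_iff_dvd]
        have h8 : ((derivative g)).eval c = 0 := h2
        rw [hg, derivative_map, ← hz, eval_map, eval₂_at_intCast] at h8
        simpa using h8
      obtain ⟨w, hw⟩ := h7
      have h9 : aeval θ (derivative (minpoly ℤ θ)) = aeval θ (X - C z : ℤ[X]) * aeval θ q + (p : 𝓞 E) * (w : 𝓞 E) := by
        rw [← map_mul, ← hq, map_sub, aeval_C, hw]
        simp
      rw [h9]
      refine Ideal.add_mem _ (Ideal.mul_mem_right _ _ (Ideal.subset_span (by simp)))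
        (Ideal.mul_mem_right _ _ (Ideal.subset_span (by simp)))
    have h10 : absNorm (span {(p : 𝓞 E), aeval θ (X - C z : ℤ[X])}) ∣ MM θ := by
      unfold MM
      apply Ideal.absNorm_dvd_absNorm_of_le
      rw [Ideal.span_singleton_le_iff_mem]
      exact h5
    rw [h4] at h10
    exact hpM h10
  -- the count
  have h1 : cc (triv E) p = ∑ᶠ 𝔭 ∈ {𝔭 : Ideal (𝓞 E) | absNorm 𝔭 = p}, triv E 𝔭 := cc_prime (triv E) hp
  have hfin : {𝔭 : Ideal (𝓞 E) | absNorm 𝔭 = p}.Finite := NN_finite p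
  have h2 : cc (triv E) p = ((hfin.toFinset.card : ℕ) : ℂ) := by
    rw [h1, finsum_mem_eq_finite_toFinset_sum _ hfin, Finset.sum_congr rfl (g := fun _ => (1 : ℂ)), Finset.sum_const,
      nsmul_eq_mul, mul_one]
    intro 𝔭 h𝔭
    rw [Set.Finite.mem_toFinset] at h𝔭
    apply triv_apply
    rintro rfl
    have h3 : absNorm (⊥ : Ideal (𝓞 E)) = p := h𝔭
    rw [absNorm_bot] at h3
    exact hp.ne_zero h3.symm
  have h3 : (minpoly ℤ θ).natDegree ≤ hfin.toFinset.card := by
    rw [← hcard, ← Multiset.toFinset_card_of_nodup hnd]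
    refine Finset.card_le_card_of_injOn (fun c => if h : X - C c ∈ RingOfIntegers.monicFactorsMod θ p then
      ((e.symm ⟨X - C c, h⟩ : (span {(p : ℤ)}).primesOver (𝓞 E)) : Ideal (𝓞 E)) else ⊥) ?_ ?_
    · intro c hc
      have hc' := hmem c (Multiset.mem_toFinset.1 hc)
      rw [Finset.mem_coe, Set.Finite.mem_toFinset]
      simp only
      rw [dif_pos hc']
      exact hnorm _ hc' (natDegree_X_sub_C c)
    · intro c hc d hd hcd
      have hc' := hmem c (Multiset.mem_toFinset.1 hc)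
      have hd' := hmem d (Multiset.mem_toFinset.1 hd)
      simp only at hcd
      rw [dif_pos hc', dif_pos hd'] at hcd
      have h4 := e.symm.injective (Subtype.ext hcd)
      have h5 : (X - C c : (ZMod p)[X]) = X - C d := congrArg Subtype.val h4
      have h6 := congrArg (fun P : (ZMod p)[X] => P.coeff 0) h5
      simpa using h6
  unfold bb
  rw [h2, Complex.natCast_re, ArithmeticFunction.vonMangoldt_apply_prime hp]
  exact mul_le_mul_of_nonneg_right (by exact_mod_cast h3) (Real.log_natCast_nonneg p)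

/-- the number field of an irreducible polynomial -/
theorem exists_field {f : ℤ[X]} (hf : f.Monic) (hi : Irreducible f) : ∃ (E : Type) (_ : Field E) (_ : NumberField E)
    (θ : 𝓞 E), minpoly ℤ θ = f ∧ Algebra.adjoin ℚ {algebraMap (𝓞 E) E θ} = ⊤ ∧ Module.finrank ℚ E = f.natDegree := by
  have hi' : Irreducible (f.map (algebraMap ℤ ℚ)) := (hf.irreducible_iff_irreducible_map_fraction_map).1 hi
  have hfact : Fact (Irreducible (f.map (algebraMap ℤ ℚ))) := ⟨hi'⟩
  obtain ⟨g, hg⟩ : ∃ g : ℚ[X], g = f.map (algebraMap ℤ ℚ) := ⟨_, rfl⟩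
  rw [← hg] at hi' hfact
  obtain ⟨r, hr⟩ : ∃ r : AdjoinRoot g, r = AdjoinRoot.root g := ⟨_, rfl⟩
  have hmk : ∀ q : ℚ[X], aeval r q = AdjoinRoot.mk g q := by
    intro q
    have h1 := AdjoinRoot.aeval_eq (f := g) q
    rw [← h1, aeval_def, hr]
    congr 1
  have hrootg : aeval r g = 0 := by
    rw [hmk, AdjoinRoot.mk_self]
  have hroot : aeval r f = 0 := by
    have h1 := congrArg (aeval r) hg
    rw [aeval_map_algebraMap, hrootg] at h1
    exact h1.symm
  have hint : IsIntegral ℤ r := ⟨f, hf, by rwa [aeval_def] at hroot⟩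
  obtain ⟨θ, hθ⟩ : ∃ θ : 𝓞 (AdjoinRoot g), algebraMap (𝓞 (AdjoinRoot g)) (AdjoinRoot g) θ = r := ⟨⟨r, hint⟩, rfl⟩
  refine ⟨AdjoinRoot g, inferInstance, inferInstance, θ, ?_, ?_, ?_⟩
  · have h1 : minpoly ℚ r = g := by
      refine (minpoly.eq_of_irreducible_of_monic hi' hrootg ?_).symm
      have := hf.map (algebraMap ℤ ℚ)
      rwa [← hg] at this
    have h2 := minpoly.isIntegrallyClosed_eq_field_fractions ℚ (AdjoinRoot g) (s := θ)
      (RingOfIntegers.isIntegral _)
    rw [hθ, h1] at h2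
    exact (map_injective (algebraMap ℤ ℚ) (algebraMap ℤ ℚ).injective_int (hg.symm.trans h2)).symm
  · rw [hθ, eq_top_iff]
    intro x _
    obtain ⟨q, hq⟩ := AdjoinRoot.mk_surjective x
    rw [← hq, ← hmk]
    exact aeval_mem_adjoin_singleton ℚ r
  · have h1 := (AdjoinRoot.powerBasis hi'.ne_zero).finrank
    rw [AdjoinRoot.powerBasis_dim] at h1
    have h2 : g.natDegree = f.natDegree := by
      have := natDegree_map_eq_of_injective (algebraMap ℤ ℚ).injective_int f
      rwa [← hg] at this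
    rw [← h2, ← h1]

end Pool.Agent.K4H57.EC
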