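import Pool.Agent.R362.NearHad

set_option autoImplicit false

/-!
# Stechkin's inequality for entire functions with zeros in a strip
-/

namespace Pool.Agent.K4H57.EC

open Complex Filter Topology Set Polynomial
open scoped ComplexConjugate

open Pool.Agent.R362.Near (Gr)

/-- the kernel of the pair `a`, `-conj a` -/
noncomputable def ker (z a : ℂ) : ℝ := (1 / (z - a)).re + (1 / (z + conj a)).re

lemma ker_eq (c y β γ : ℝ) (hβ : |β| ≤ 1 / 2) (hc : 1 / 2 < c) :
    ker (c + y * I) (β + γ * I) = 2 * c * (c ^ 2 - β ^ 2 + (y - γ) ^ 2) /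
      ((c ^ 2 - β ^ 2 + (y - γ) ^ 2) ^ 2 + (2 * β * (y - γ)) ^ 2) := by
  obtain ⟨h1, h2⟩ := abs_le.1 hβ
  have e1 : ((c : ℂ) + y * I - (β + γ * I)) = ((c - β : ℝ) : ℂ) + ((y - γ : ℝ) : ℂ) * I := by
    push_cast; ring
  have e2 : ((c : ℂ) + y * I + conj (β + γ * I : ℂ)) = ((c + β : ℝ) : ℂ) + ((y - γ : ℝ) : ℂ) * I := by
    simp only [map_add, map_mul, Complex.conj_ofReal, Complex.conj_I]
    push_cast; ring
  unfold ker
  rw [e1, e2, one_div, one_div, Complex.inv_re, Complex.inv_re, Complex.normSq_add_mul_I, Complex.normSq_add_mul_I]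
  have r1 : (((c - β : ℝ) : ℂ) + ((y - γ : ℝ) : ℂ) * I).re = c - β := by simp
  have r2 : (((c + β : ℝ) : ℂ) + ((y - γ : ℝ) : ℂ) * I).re = c + β := by simp
  rw [r1, r2]
  have p1 : 0 < (c - β) ^ 2 + (y - γ) ^ 2 := by nlinarith [sq_nonneg (y - γ)]
  have p2 : 0 < (c + β) ^ 2 + (y - γ) ^ 2 := by nlinarith [sq_nonneg (y - γ)]
  have e3 : (c ^ 2 - β ^ 2 + (y - γ) ^ 2) ^ 2 + (2 * β * (y - γ)) ^ 2 =
      ((c - β) ^ 2 + (y - γ) ^ 2) * ((c + β) ^ 2 + (y - γ) ^ 2) := by ring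
  rw [e3, div_add_div _ _ p1.ne' p2.ne']
  congr 1
  ring

/-- Stechkin's lemma -/
lemma stechkin {c c1 y : ℝ} (hc : 1 / 2 < c) (hc1 : c1 ^ 2 = c ^ 2 + 1) (hc10 : 0 < c1) (a : ℂ)
    (ha : |a.re| ≤ 1 / 2) : c / c1 * ker (c1 + y * I) a ≤ ker (c + y * I) a := by
  obtain ⟨β, hβ⟩ : ∃ β : ℝ, β = a.re := ⟨_, rfl⟩
  obtain ⟨γ, hγ⟩ : ∃ γ : ℝ, γ = a.im := ⟨_, rfl⟩
  have e : a = β + γ * I := by rw [hβ, hγ]; exact (Complex.re_add_im a).symm
  rw [← hβ] at ha
  have hc1c : 1 / 2 < c1 := by nlinarith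
  rw [e, ker_eq c1 y β γ ha hc1c, ker_eq c y β γ ha hc, hc1]
  obtain ⟨A, hA⟩ : ∃ A : ℝ, A = c ^ 2 - β ^ 2 + (y - γ) ^ 2 := ⟨_, rfl⟩
  obtain ⟨B, hB⟩ : ∃ B : ℝ, B = 2 * β * (y - γ) := ⟨_, rfl⟩
  have hβ2 : β ^ 2 ≤ 1 / 4 := by
    have := sq_abs β
    have := abs_nonneg β
    nlinarith
  have hA0 : (y - γ) ^ 2 ≤ A := by rw [hA]; nlinarith
  have hApos : 0 < A := by rw [hA]; nlinarith [sq_nonneg (y - γ)]
  have hBA : B ^ 2 ≤ A * (A + 1) := by
    have h1 : B ^ 2 = 4 * β ^ 2 * (y - γ) ^ 2 := by rw [hB]; ring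
    have h2 : B ^ 2 ≤ (y - γ) ^ 2 := by
      rw [h1]
      nlinarith [sq_nonneg (y - γ)]
    nlinarith
  have e1 : c ^ 2 + 1 - β ^ 2 + (y - γ) ^ 2 = A + 1 := by rw [hA]; ring
  rw [e1, ← hA, ← hB]
  have e2 : c / c1 * (2 * c1 * (A + 1) / ((A + 1) ^ 2 + B ^ 2)) = 2 * c * ((A + 1) / ((A + 1) ^ 2 + B ^ 2)) := by
    field_simp
  have e3 : 2 * c * A / (A ^ 2 + B ^ 2) = 2 * c * (A / (A ^ 2 + B ^ 2)) := by ring
  rw [e2, e3]
  refine mul_le_mul_of_nonneg_left ?_ (by linarith)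
  rw [div_le_div_iff₀ (by positivity) (by positivity)]
  nlinarith

lemma logDeriv_sym {Y : ℂ → ℂ} (hY : Differentiable ℂ Y) (hs : ∀ z : ℂ, Y (-(conj z)) = conj (Y z)) (z : ℂ) :
    logDeriv Y z = -conj (logDeriv Y (-(conj z))) := by
  have h1 : HasDerivAt (fun w : ℂ => Y (-w)) (-deriv Y (-(conj z))) (conj z) := by
    have h2 := HasDerivAt.comp (h₂ := Y) (h := fun w : ℂ => -w) (conj z) (hY (-(conj z))).hasDerivAt
      (hasDerivAt_neg (conj z))
    rw [mul_neg_one] at h2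
    exact h2
  have h3 := h1.conj_conj
  rw [Complex.conj_conj] at h3
  have h4 : ((starRingEnd ℂ) ∘ (fun w : ℂ => Y (-w)) ∘ (starRingEnd ℂ)) = Y := by
    funext w
    show conj (Y (-(conj w))) = Y w
    rw [hs, Complex.conj_conj]
  rw [h4] at h3
  rw [logDeriv_apply, logDeriv_apply, h3.deriv, hs, map_div₀, Complex.conj_conj, map_neg]
  ring

lemma sum_re (z : ℂ) : ∀ l : Multiset ℂ, ((l.map fun a => 1 / (z - a)).sum).re =
    (l.map fun a => (1 / (z - a)).re).sum := by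
  intro l
  induction l using Multiset.induction_on with
  | empty => simp
  | cons a l ih => rw [Multiset.map_cons, Multiset.sum_cons, Complex.add_re, ih, Multiset.map_cons, Multiset.sum_cons]

lemma ker_sym (z a : ℂ) : (1 / (z - a)).re - (1 / (-(conj z) - a)).re = ker z a := by
  unfold ker
  have h1 : (1 / (-(conj z) - a)).re = -(1 / (z + conj a)).re := by
    have h2 : (-(conj z) - a) = -conj (z + conj a) := by
      rw [map_add, Complex.conj_conj]
      ring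
    rw [h2, one_div, inv_neg, Complex.neg_re, ← map_inv₀, Complex.conj_re, one_div]
  rw [h1]
  ring

lemma sum_ker (z : ℂ) : ∀ l : Multiset ℂ, (l.map fun a => (1 / (z - a)).re).sum -
    (l.map fun a => (1 / (-(conj z) - a)).re).sum = (l.map fun a => ker z a).sum := by
  intro l
  induction l using Multiset.induction_on with
  | empty => simp
  | cons a l ih =>
    simp only [Multiset.map_cons, Multiset.sum_cons]
    rw [← ih, ← ker_sym]
    ring

lemma sum_stechkin {c c1 y : ℝ} (hc : 1 / 2 < c) (hc1 : c1 ^ 2 = c ^ 2 + 1) (hc10 : 0 < c1) :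
    ∀ l : Multiset ℂ, (∀ a ∈ l, |a.re| ≤ 1 / 2) →
      c / c1 * (l.map fun a => ker (c1 + y * I) a).sum ≤ (l.map fun a => ker (c + y * I) a).sum := by
  intro l
  induction l using Multiset.induction_on with
  | empty => intro _; simp
  | cons a l ih =>
    intro hl
    simp only [Multiset.map_cons, Multiset.sum_cons]
    have h1 := ih fun b hb => hl b (Multiset.mem_cons_of_mem hb)
    have h2 := stechkin (y := y) hc hc1 hc10 a (hl a (Multiset.mem_cons_self a l))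
    rw [mul_add]
    linarith

/-- **Stechkin's inequality** for a limit of polynomials -/
theorem stech_lim {Y : ℂ → ℂ} (hg : Pool.Agent.Y671.GL.AppX Y) (hY : Differentiable ℂ Y)
    (hs : ∀ z : ℂ, Y (-(conj z)) = conj (Y z)) (hst : ∀ s : ℂ, Y s = 0 → |s.re| ≤ 1 / 2)
    {c c1 y : ℝ} (hc : 1 / 2 < c) (hc1 : c1 ^ 2 = c ^ 2 + 1) (hc10 : 0 < c1) :
    c / c1 * (logDeriv Y (c1 + y * I)).re ≤ (logDeriv Y (c + y * I)).re := by
  obtain ⟨Q, hQ, hlim⟩ := hg
  have hlim' : TendstoLocallyUniformlyOn (fun (N : ℕ) (z : ℂ) => (Q N).eval z) Y atTop Set.univ :=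
    hlim.tendstoLocallyUniformlyOn
  have h2 := hlim'.deriv (Eventually.of_forall fun N => ((Q N).differentiable).differentiableOn) isOpen_univ
  have hc1c : 1 / 2 < c1 := by nlinarith
  -- the limit at one point
  have h1 : ∀ z : ℂ, Y z ≠ 0 → Tendsto (fun N => (((Q N).roots.map fun a => (1 / (z - a)).re).sum)) atTop
      (𝓝 (logDeriv Y z).re) := by
    intro z h0
    have h3 : Tendsto (fun N => (Q N).eval z) atTop (𝓝 (Y z)) := hlim'.tendsto_at (Set.mem_univ z)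
    have h4 : Tendsto (fun N => deriv (fun z => (Q N).eval z) z) atTop (𝓝 (deriv Y z)) := h2.tendsto_at (Set.mem_univ z)
    have h5 : Tendsto (fun N => (deriv (fun z => (Q N).eval z) z / (Q N).eval z).re) atTop (𝓝 (logDeriv Y z).re) :=
      (Complex.continuous_re.tendsto _).comp (h4.div h3 h0)
    refine h5.congr' ?_
    have h6 : ∀ᶠ N in atTop, (Q N).eval z ≠ 0 := h3.eventually_ne h0
    filter_upwards [h6] with N hN
    rw [Polynomial.deriv, (IsAlgClosed.splits (Q N)).eval_derivative_div_eval_of_ne_zero hN, sum_re]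
  have h3 : ∀ z : ℂ, 1 / 2 < z.re → Tendsto (fun N => ((Q N).roots.map fun a => ker z a).sum) atTop
      (𝓝 (2 * (logDeriv Y z).re)) := by
    intro z hz
    have h0 : Y z ≠ 0 := by
      intro h
      have := (abs_le.1 (hst z h)).2
      linarith
    have h0' : Y (-(conj z)) ≠ 0 := by
      rw [hs, Ne, map_eq_zero]
      exact h0
    have h4 := (h1 z h0).sub (h1 _ h0')
    have h5 := congrArg Complex.re (logDeriv_sym hY hs z)
    rw [Complex.neg_re, Complex.conj_re] at h5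
    have h6 : (logDeriv Y z).re - (logDeriv Y (-(conj z))).re = 2 * (logDeriv Y z).re := by linarith
    rw [h6] at h4
    refine h4.congr fun N => ?_
    exact sum_ker z _
  have hre : ∀ x : ℝ, ((x : ℂ) + y * I).re = x := fun x => by simp
  have h4 := h3 (c + y * I) (by rw [hre]; exact hc)
  have h5 := (h3 (c1 + y * I) (by rw [hre]; exact hc1c)).const_mul (c / c1)
  have h6 := le_of_tendsto_of_tendsto' h5 h4 fun N =>
    sum_stechkin hc hc1 hc10 (Q N).roots fun a ha => hQ N a (Polynomial.isRoot_of_mem_roots ha)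
  linarith

end Pool.Agent.K4H57.EC
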